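import Pool.Agent.Lib.MP_9ed307_gt.Defs

namespace Pool.Agent.Lib.MP_9ed307_gt

open Equiv SemidirectProduct

/-- The properties proved by induction. -/
structure Good (G : Type) [Group G] (o : Option (MulAut G)) (d : ℕ) : Prop where
  exp : ∀ x : G, IsOfFinOrder (Abelianization.of x) → Abelianization.of x ^ 2 ^ d = 1
  tors : 0 < d → ∃ x : G, Abelianization.of x ≠ 1 ∧ IsOfFinOrder (Abelianization.of x)
  sq : ∀ φ, o = some φ → ∃ a, ∀ x, φ (φ x) = a * x * a⁻¹
  inv : ∀ φ, o = some φ → ∃ h : G →* Multiplicative (ZMod 2), ∃ t : G,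
    (∀ x, h (φ x) = h x) ∧ h t ≠ 1 ∧ Abelianization.of (φ t) = (Abelianization.of t)⁻¹

lemma multInt_torsionfree {n : Multiplicative ℤ} (h : IsOfFinOrder n) : n = 1 := by
  rw [isOfFinOrder_iff_pow_eq_one] at h
  obtain ⟨k, hk, h⟩ := h
  have h' : (k : ℤ) * Multiplicative.toAdd n = 0 := by
    have := congrArg Multiplicative.toAdd h
    simpa using this
  rcases mul_eq_zero.1 h' with h0 | h0
  · omega
  · exact h0

/-- mod 2 reduction -/
def mod2 : Multiplicative ℤ →* Multiplicative (ZMod 2) :=
  AddMonoidHom.toMultiplicative (Int.castAddHom (ZMod 2))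

lemma mod2_inv (n : Multiplicative ℤ) : mod2 n⁻¹ = mod2 n := by
  rw [map_inv]
  have : ∀ x : Multiplicative (ZMod 2), x⁻¹ = x := by decide
  exact this _

lemma mod2_one : mod2 (Multiplicative.ofAdd 1) ≠ 1 := by
  intro h
  have h' : ((1 : ℤ) : ZMod 2) = 0 := congrArg Multiplicative.toAdd h
  revert h'
  decide

lemma of_conj {G : Type} [Group G] (a x : G) :
    Abelianization.of (a * x * a⁻¹) = Abelianization.of x := by
  rw [map_mul, map_mul, map_inv, mul_comm, inv_mul_cancel_left]

/-- Torsion in the abelianization goes up to a group with a retraction onto the abelianization. -/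
lemma tors_up {G H : Type} [Group G] [Group H] (ι : G →* H) (r : H →* Abelianization G)
    (hr : ∀ x, r (ι x) = Abelianization.of x)
    (h : ∃ x : G, Abelianization.of x ≠ 1 ∧ IsOfFinOrder (Abelianization.of x)) :
    ∃ x : H, Abelianization.of x ≠ 1 ∧ IsOfFinOrder (Abelianization.of x) := by
  obtain ⟨x, hx, hx'⟩ := h
  refine ⟨ι x, ?_, ?_⟩
  · intro h1
    apply hx
    have := congrArg (Abelianization.lift r) h1
    rwa [Abelianization.lift_apply_of, hr, map_one] at this
  · have := (Abelianization.map ι).isOfFinOrder hx'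
    rwa [Abelianization.map_of] at this

lemma exp_down {G H : Type} [Group G] [Group H] (r : H →* Abelianization G) {d : ℕ}
    (h : ∀ x : G, IsOfFinOrder (Abelianization.of x) → Abelianization.of x ^ 2 ^ d = 1)
    {x : H} (hx : IsOfFinOrder (Abelianization.of x)) : r x ^ 2 ^ d = 1 := by
  have h1 : IsOfFinOrder (r x) := by
    have := (Abelianization.lift r).isOfFinOrder hx
    rwa [Abelianization.lift_apply_of] at this
  obtain ⟨y, hy⟩ := QuotientGroup.mk'_surjective (commutator G) (r x)
  have hy' : Abelianization.of y = r x := hy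
  rw [← hy'] at h1 ⊢
  exact h y h1

lemma Good.torus : Good (Multiplicative ℤ) (some (MulEquiv.inv _)) 0 where
  exp x hx := by
    have h1 : IsOfFinOrder x := by
      have := (Abelianization.lift (MonoidHom.id (Multiplicative ℤ))).isOfFinOrder hx
      rwa [Abelianization.lift_apply_of] at this
    rw [multInt_torsionfree h1, map_one, one_pow]
  tors h := absurd h (lt_irrefl _)
  sq φ hφ := by
    obtain rfl := Option.some.inj hφ
    exact ⟨1, fun x => by simp⟩
  inv φ hφ := by
    obtain rfl := Option.some.inj hφ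
    refine ⟨mod2, Multiplicative.ofAdd 1, fun x => ?_, mod2_one, ?_⟩
    · exact mod2_inv x
    · rw [← map_inv]; rfl

lemma transport_apply {G H : Type} [Group G] [Group H] (e : G ≃* H) (φ : MulAut G) (x : H) :
    transport e φ x = e (φ (e.symm x)) := rfl

lemma Good.iso {G H : Type} [Group G] [Group H] {o : Option (MulAut G)} {d : ℕ} (e : G ≃* H)
    (h : Good G o d) : Good H (o.map (transport e)) d where
  exp x hx := by
    have h1 : IsOfFinOrder (Abelianization.of (e.symm x)) := by
      have := (Abelianization.map (e.symm : H →* G)).isOfFinOrder hx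
      rwa [Abelianization.map_of] at this
    have h2 := congrArg (Abelianization.map (e : G →* H)) (h.exp _ h1)
    rw [map_pow, Abelianization.map_of, map_one] at h2
    simpa using h2
  tors hd := by
    refine tors_up (e : G →* H) (Abelianization.of.comp (e.symm : H →* G)) ?_ (h.tors hd)
    intro x; simp
  sq φ hφ := by
    rw [Option.map_eq_some_iff] at hφ
    obtain ⟨φ, ho, rfl⟩ := hφ
    obtain ⟨a, ha⟩ := h.sq φ ho
    refine ⟨e a, fun x => ?_⟩
    simp [ha, transport_apply]
  inv φ hφ := by
    rw [Option.map_eq_some_iff] at hφ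
    obtain ⟨φ, ho, rfl⟩ := hφ
    obtain ⟨f, t, h1, h2, h3⟩ := h.inv φ ho
    refine ⟨f.comp (e.symm : H →* G), e t, fun x => ?_, ?_, ?_⟩
    · simp [h1, transport_apply]
    · simpa using h2
    · have := congrArg (Abelianization.map (e : G →* H)) h3
      rw [map_inv, Abelianization.map_of, Abelianization.map_of] at this
      simpa [transport_apply] using this

lemma Good.inner {G : Type} [Group G] {φ : MulAut G} {d : ℕ} (a : G) (h : Good G (some φ) d) :
    Good G (some (MulAut.conj a * φ)) d where
  exp := h.exp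
  tors := h.tors
  sq ψ hψ := by
    obtain rfl := Option.some.inj hψ
    obtain ⟨c, hc⟩ := h.sq φ rfl
    refine ⟨a * φ a * c, fun x => ?_⟩
    simp only [MulAut.mul_apply, MulAut.conj_apply, map_mul, map_inv, hc]
    group
  inv ψ hψ := by
    obtain rfl := Option.some.inj hψ
    obtain ⟨f, t, h1, h2, h3⟩ := h.inv φ rfl
    refine ⟨f, t, fun x => ?_, h2, ?_⟩
    · simp only [MulAut.mul_apply, MulAut.conj_apply, map_mul, map_inv, h1]
      rw [mul_comm, inv_mul_cancel_left]
    · simp only [MulAut.mul_apply, MulAut.conj_apply]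
      rw [of_conj, h3]

lemma Good.forget {G : Type} [Group G] {o : Option (MulAut G)} {d : ℕ} (h : Good G o d) :
    Good G none d where
  exp := h.exp
  tors := h.tors
  sq φ hφ := by cases hφ
  inv φ hφ := by cases hφ

lemma Good.unknot : Good Unit none 0 where
  exp x _ := by rw [Subsingleton.elim x 1, map_one, one_pow]
  tors h := absurd h (lt_irrefl _)
  sq φ hφ := by cases hφ
  inv φ hφ := by cases hφ

lemma cable_apply {G : Type} [Group G] (φ : MulAut G) (x : Multiplicative ℤ × G) :
    cableInv φ x = (x.1⁻¹, φ x.2) := rfl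

lemma Good.cable {G : Type} [Group G] {o : Option (MulAut G)} {d : ℕ} (h : Good G o d) :
    Good (Multiplicative ℤ × G) (o.map cableInv) d where
  exp x hx := by
    have h1 : x.1 = 1 := by
      apply multInt_torsionfree
      have := (Abelianization.lift (MonoidHom.fst (Multiplicative ℤ) G)).isOfFinOrder hx
      rwa [Abelianization.lift_apply_of] at this
    have h2 : IsOfFinOrder (Abelianization.of x.2) := by
      have := (Abelianization.map (MonoidHom.snd (Multiplicative ℤ) G)).isOfFinOrder hx
      rwa [Abelianization.map_of] at this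
    have h3 := congrArg (Abelianization.map (MonoidHom.inr (Multiplicative ℤ) G)) (h.exp _ h2)
    rw [map_pow, Abelianization.map_of, map_one] at h3
    have h4 : x = (MonoidHom.inr (Multiplicative ℤ) G) x.2 := by
      ext
      · simp [h1]
      · simp
    rw [h4]
    exact h3
  tors hd := by
    refine tors_up (MonoidHom.inr (Multiplicative ℤ) G)
      (Abelianization.of.comp (MonoidHom.snd (Multiplicative ℤ) G)) ?_ (h.tors hd)
    intro x; simp
  sq φ hφ := by
    rw [Option.map_eq_some_iff] at hφ
    obtain ⟨φ, ho, rfl⟩ := hφ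
    obtain ⟨a, ha⟩ := h.sq φ ho
    refine ⟨(1, a), fun x => ?_⟩
    rw [cable_apply, cable_apply, ha, inv_inv]
    ext
    · simp
    · simp
  inv φ hφ := by
    rw [Option.map_eq_some_iff] at hφ
    obtain ⟨φ, ho, rfl⟩ := hφ
    refine ⟨mod2.comp (MonoidHom.fst (Multiplicative ℤ) G), (Multiplicative.ofAdd 1, 1),
      fun x => ?_, mod2_one, ?_⟩
    · exact mod2_inv _
    · rw [← map_inv, cable_apply]
      congr 1
      ext
      · rfl
      · simp only [Prod.snd_inv, inv_one]
        exact map_one φ

lemma Good.hyperbolic :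
    Good (Multiplicative ℤ × Multiplicative ℤ) (some (MulEquiv.inv _)) 0 := by
  have h := Good.torus.cable
  have e : (some (MulEquiv.inv (Multiplicative ℤ))).map cableInv =
      some (MulEquiv.inv (Multiplicative ℤ × Multiplicative ℤ)) := by
    rw [Option.map_some]
    congr 1
  rwa [e] at h

end Pool.Agent.Lib.MP_9ed307_gt
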