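import Pool.Agent.Lib.MP_9ed307_gt.Cross

namespace Pool.Agent.Lib.MP_9ed307_gt

open Equiv

/-! ### Conjugacy of the generators -/

lemma conj_σ {m : ℕ} (i : Fin (m + 1)) : ∃ u : Braid (m + 1), σ i = u⁻¹ * σ 0 * u := by
  induction i using Fin.induction with
  | zero => exact ⟨1, by simp⟩
  | succ i ih =>
    obtain ⟨u, hu⟩ := ih
    have hb : σ i.castSucc * σ i.succ * σ i.castSucc = σ i.succ * σ i.castSucc * σ i.succ :=
      σ_braid (by simp)
    refine ⟨u * (σ i.castSucc * σ i.succ)⁻¹, ?_⟩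
    rw [mul_inv_rev, inv_inv]
    have h1 : σ i.castSucc * σ i.succ * u⁻¹ * σ 0 * (u * (σ i.castSucc * σ i.succ)⁻¹) =
        σ i.castSucc * σ i.succ * (u⁻¹ * σ 0 * u) * (σ i.castSucc * σ i.succ)⁻¹ := by group
    rw [h1, ← hu, hb]
    group

/-- permutations realised by braids commuting with `σ 0` -/
def HH (m : ℕ) : Subgroup (Perm (Fin (m + 2))) :=
  (Subgroup.centralizer {(σ 0 : Braid (m + 1))}).map (perm (m + 1))

lemma mem_HH {m : ℕ} {π : Perm (Fin (m + 2))} :
    π ∈ HH m ↔ ∃ γ : Braid (m + 1), γ * σ 0 = σ 0 * γ ∧ perm (m + 1) γ = π := by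
  constructor
  · rintro ⟨γ, hγ, rfl⟩
    exact ⟨γ, (Subgroup.mem_centralizer_singleton_iff.1 hγ), rfl⟩
  · rintro ⟨γ, hγ, rfl⟩
    exact ⟨γ, Subgroup.mem_centralizer_singleton_iff.2 hγ, rfl⟩

lemma swap01_mem {m : ℕ} : swap (0 : Fin (m + 2)) 1 ∈ HH m :=
  mem_HH.2 ⟨σ 0, rfl, by rw [perm_σ]; rfl⟩

lemma swap_adj_mem {m : ℕ} (i : Fin (m + 1)) (hi : 2 ≤ (i : ℕ)) :
    swap i.castSucc i.succ ∈ HH m :=
  mem_HH.2 ⟨σ i, (σ_comm (by simpa using hi)).symm, perm_σ i⟩

lemma swap_mem_HH {m : ℕ} (p q : Fin (m + 2)) (hp : 2 ≤ (p : ℕ)) (hq : 2 ≤ (q : ℕ)) :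
    swap p q ∈ HH m := by
  rcases eq_or_ne p q with rfl | hne
  · rw [swap_self]; exact (HH m).one_mem
  wlog lt : p < q generalizing p q
  · rw [swap_comm]
    exact this q p hq hp hne.symm (hne.lt_or_gt.resolve_left lt)
  clear hne
  induction q using Fin.induction with
  | zero => exact absurd hq (by simp)
  | succ j ih =>
    have h1 : (p : ℕ) < (j : ℕ) + 1 := by simpa [Fin.lt_def] using lt
    have mem : swap j.castSucc j.succ ∈ HH m := swap_adj_mem j (by omega)
    rcases Nat.lt_or_ge (p : ℕ) j with h2 | h2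
    · have lts : p < j.castSucc := by simpa [Fin.lt_def] using h2
      have h3 := ih (by simp only [Fin.val_castSucc]; omega) lts
      rw [swap_comm, ← swap_mul_swap_mul_swap (y := Fin.castSucc j) lts.ne lt.ne]
      exact (HH m).mul_mem ((HH m).mul_mem mem h3) mem
    · have h3 : p = j.castSucc := by ext; simp only [Fin.val_castSucc]; omega
      rw [h3]; exact mem

lemma fix01_mem_HH {m : ℕ} : ∀ (n : ℕ) (π : Perm (Fin (m + 2))), π.support.card = n →
    π 0 = 0 → π 1 = 1 → π ∈ HH m := by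
  intro n
  induction n using Nat.strong_induction_on with
  | _ n ih =>
    intro π hn h0 h1
    by_cases hπ : π = 1
    · rw [hπ]; exact (HH m).one_mem
    obtain ⟨p, hp⟩ : ∃ p, π p ≠ p := by
      by_contra hcon
      push Not at hcon
      exact hπ (Perm.ext hcon)
    have hp0 : p ≠ 0 := by rintro rfl; exact hp h0
    have hp1 : p ≠ 1 := by rintro rfl; exact hp h1
    have hq0 : π p ≠ 0 := by
      intro h; apply hp0; apply π.injective; rw [h, h0]
    have hq1 : π p ≠ 1 := by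
      intro h; apply hp1; apply π.injective; rw [h, h1]
    have two : ∀ x : Fin (m + 2), x ≠ 0 → x ≠ 1 → 2 ≤ (x : ℕ) := by
      intro x hx0 hx1
      have a : (x : ℕ) ≠ 0 := fun h => hx0 (Fin.ext (by simpa using h))
      have b : (x : ℕ) ≠ 1 := fun h => hx1 (Fin.ext (by simpa using h))
      omega
    have hlt := Perm.card_support_swap_mul hp
    have h2 := ih _ (by rw [← hn]; exact hlt) (swap p (π p) * π) rfl
      (by rw [Perm.mul_apply, h0, swap_apply_of_ne_of_ne hp0.symm hq0.symm])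
      (by rw [Perm.mul_apply, h1, swap_apply_of_ne_of_ne hp1.symm hq1.symm])
    have h3 := (HH m).mul_mem (swap_mem_HH p (π p) (two _ hp0 hp1) (two _ hq0 hq1)) h2
    rwa [← mul_assoc, swap_mul_self, one_mul] at h3

lemma stab01_mem_HH {m : ℕ} (π : Perm (Fin (m + 2)))
    (h : (π 0 = 0 ∧ π 1 = 1) ∨ (π 0 = 1 ∧ π 1 = 0)) : π ∈ HH m := by
  rcases h with ⟨h0, h1⟩ | ⟨h0, h1⟩
  · exact fix01_mem_HH _ π rfl h0 h1
  · have h2 := fix01_mem_HH _ (swap 0 1 * π) rfl
      (by rw [Perm.mul_apply, h0, swap_apply_right])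
      (by rw [Perm.mul_apply, h1, swap_apply_left])
    have h3 := (HH m).mul_mem swap01_mem h2
    rwa [← mul_assoc, swap_mul_self, one_mul] at h3

/-- a permutation with prescribed values at two points -/
lemma exists_two {α : Type*} [DecidableEq α] {k : ℕ} (col : α → Fin k) {p q p' q' : α}
    (hpq : p ≠ q) (hpq' : p' ≠ q') (h1 : col p = col p') (h2 : col q = col q') :
    ∃ κ : Perm α, (∀ x, col (κ x) = col x) ∧ κ p = p' ∧ κ q = q' := by
  have hsw : ∀ a b : α, col a = col b → ∀ x, col (swap a b x) = col x := by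
    intro a b hab x
    by_cases hx : x = a
    · rw [hx, swap_apply_left, hab]
    · by_cases hx' : x = b
      · rw [hx', swap_apply_right, hab]
      · rw [swap_apply_of_ne_of_ne hx hx']
  refine ⟨swap (swap p p' q) q' * swap p p', ?_, ?_, ?_⟩
  · intro x
    rw [Perm.mul_apply, hsw _ _ _ _, hsw _ _ h1]
    rw [hsw _ _ h1, h2]
  · rw [Perm.mul_apply, swap_apply_left, swap_apply_of_ne_of_ne]
    · intro h
      apply hpq
      apply (swap p p').injective
      rw [swap_apply_left]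
      exact h
    · exact hpq'
  · rw [Perm.mul_apply, swap_apply_left]

section main
variable {m k : ℕ} (col : Fin (m + 2) → Fin k)

/-- the colours of the two strings crossing in `t⁻¹ σ 0 t` -/
def cp (t : Braid (m + 1)) : Fin k := col (perm (m + 1) t⁻¹ 0)

/-- the colours of the two strings crossing in `t⁻¹ σ 0 t` -/
def cq (t : Braid (m + 1)) : Fin k := col (perm (m + 1) t⁻¹ 1)

variable {col}

lemma conj_in (t t' : Braid (m + 1))
    (h : (cp col t = cp col t' ∧ cq col t = cq col t') ∨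
      (cp col t = cq col t' ∧ cq col t = cp col t')) :
    ∃ w ∈ colBraid col, w * (t⁻¹ * σ 0 * t) * w⁻¹ = t'⁻¹ * σ 0 * t' := by
  have h01 : (0 : Fin (m + 2)) ≠ 1 := by simp
  have hne : ∀ s : Braid (m + 1), perm (m + 1) s⁻¹ 0 ≠ perm (m + 1) s⁻¹ 1 := fun s h =>
    h01 ((perm (m + 1) s⁻¹).injective h)
  have key : ∀ κ : Perm (Fin (m + 2)), (∀ x, col (κ x) = col x) →
      ((κ (perm (m + 1) t⁻¹ 0) = perm (m + 1) t'⁻¹ 0 ∧
        κ (perm (m + 1) t⁻¹ 1) = perm (m + 1) t'⁻¹ 1) ∨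
      (κ (perm (m + 1) t⁻¹ 0) = perm (m + 1) t'⁻¹ 1 ∧
        κ (perm (m + 1) t⁻¹ 1) = perm (m + 1) t'⁻¹ 0)) →
      ∃ w ∈ colBraid col, w * (t⁻¹ * σ 0 * t) * w⁻¹ = t'⁻¹ * σ 0 * t' := by
    intro κ hκ hκ2
    have hπ : perm (m + 1) t' * κ * perm (m + 1) t⁻¹ ∈ HH m := by
      apply stab01_mem_HH
      simp only [Perm.mul_apply]
      rcases hκ2 with ⟨a, b⟩ | ⟨a, b⟩
      · left; rw [a, b, perm_inv_apply, perm_inv_apply]; exact ⟨rfl, rfl⟩
      · right; rw [a, b, perm_inv_apply, perm_inv_apply]; exact ⟨rfl, rfl⟩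
    obtain ⟨γ, hγ, hγ2⟩ := mem_HH.1 hπ
    refine ⟨t'⁻¹ * γ * t, ?_, ?_⟩
    · rw [mem_colBraid]
      intro i
      have : perm (m + 1) (t'⁻¹ * γ * t) = κ := by
        rw [map_mul, map_mul, hγ2, map_inv, map_inv]
        group
      rw [this, hκ]
    · have : t'⁻¹ * γ * t * (t⁻¹ * σ 0 * t) * (t'⁻¹ * γ * t)⁻¹ =
          t'⁻¹ * (γ * σ 0) * γ⁻¹ * t' := by group
      rw [this, hγ]
      group
  rcases h with ⟨a, b⟩ | ⟨a, b⟩
  · obtain ⟨κ, hκ, h1, h2⟩ := exists_two col (hne t) (hne t') a b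
    exact key κ hκ (Or.inl ⟨h1, h2⟩)
  · obtain ⟨κ, hκ, h1, h2⟩ := exists_two col (hne t) (hne t').symm a b
    exact key κ hκ (Or.inr ⟨h1, h2⟩)

lemma perm_e1 (t : Braid (m + 1)) : perm (m + 1) (t⁻¹ * σ 0 * t) =
    swap (perm (m + 1) t⁻¹ 0) (perm (m + 1) t⁻¹ 1) := by
  have h := swap_apply_apply (perm (m + 1) t⁻¹) (0 : Fin (m + 2)) 1
  rw [h, map_mul, map_mul, perm_σ, map_inv, inv_inv]
  rfl

lemma swap_col {α : Type*} [DecidableEq α] (col : α → Fin k) {a b : α} (hab : col a = col b)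
    (x : α) : col (swap a b x) = col x := by
  by_cases hx : x = a
  · rw [hx, swap_apply_left, hab]
  · by_cases hx' : x = b
    · rw [hx', swap_apply_right, hab]
    · rw [swap_apply_of_ne_of_ne hx hx']

lemma e1_mem_iff (t : Braid (m + 1)) :
    t⁻¹ * σ 0 * t ∈ colBraid col ↔ cp col t = cq col t := by
  rw [mem_colBraid, perm_e1]
  constructor
  · intro h
    have := h (perm (m + 1) t⁻¹ 0)
    rw [swap_apply_left] at this
    exact this.symm
  · intro h i
    exact swap_col col h i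

lemma e2_mem (t : Braid (m + 1)) : t⁻¹ * (σ 0 * σ 0) * t ∈ colBraid col := by
  rw [mem_colBraid]
  intro i
  have h : perm (m + 1) (t⁻¹ * (σ 0 * σ 0) * t) = 1 := by
    rw [map_mul, map_mul, map_mul, perm_σ, swap_mul_self, mul_one, map_inv, inv_mul_cancel]
  rw [h, Perm.one_apply]

/-- two homomorphisms of the coloured braid group which agree on the standard elements are
equal -/
lemma hom_eq {M : Type} [CommGroup M] (f g : colBraid col →* M)
    (h2 : ∀ t, f ⟨_, e2_mem t⟩ = g ⟨_, e2_mem t⟩)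
    (h1 : ∀ t (ht : cp col t = cq col t), f ⟨_, (e1_mem_iff t).2 ht⟩ =
      g ⟨_, (e1_mem_iff t).2 ht⟩) : f = g := by
  let T : Subgroup (Braid (m + 1)) := (MonoidHom.eqLocus f g).map (colBraid col).subtype
  have hT : ∀ x, x ∈ T ↔ ∃ hx : x ∈ colBraid col, f ⟨x, hx⟩ = g ⟨x, hx⟩ := by
    intro x
    constructor
    · rintro ⟨⟨y, hy⟩, hy2, rfl⟩
      exact ⟨hy, hy2⟩
    · rintro ⟨hx, h⟩
      exact ⟨⟨x, hx⟩, h, rfl⟩
  have hsq : sqN (m + 1) ≤ T := by
    unfold sqN Subgroup.normalClosure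
    rw [Subgroup.closure_le]
    intro x hx
    rw [Group.mem_conjugatesOfSet_iff] at hx
    obtain ⟨_, ⟨i, rfl⟩, hx⟩ := hx
    rw [isConj_iff] at hx
    obtain ⟨c, rfl⟩ := hx
    obtain ⟨u, hu⟩ := conj_σ i
    have e : c * (σ i * σ i) * c⁻¹ = (u * c⁻¹)⁻¹ * (σ 0 * σ 0) * (u * c⁻¹) := by
      rw [hu]; group
    change c * (σ i * σ i) * c⁻¹ ∈ T
    rw [e, hT]
    exact ⟨e2_mem _, h2 _⟩
  have hyoung : ∀ (n : ℕ) (π : Perm (Fin (m + 2))), π.support.card = n →
      (∀ i, col (π i) = col i) → ∃ β ∈ T, perm (m + 1) β = π := by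
    intro n
    induction n using Nat.strong_induction_on with
    | _ n ih =>
      intro π hn hπ
      by_cases hπ1 : π = 1
      · exact ⟨1, T.one_mem, by rw [hπ1, map_one]⟩
      obtain ⟨p, hp⟩ : ∃ p, π p ≠ p := by
        by_contra hcon
        push Not at hcon
        exact hπ1 (Perm.ext hcon)
      have hlt := Perm.card_support_swap_mul hp
      have hc : col p = col (π p) := (hπ p).symm
      obtain ⟨β, hβ, hβ2⟩ := ih _ (by rw [← hn]; exact hlt) (swap p (π p) * π) rfl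
        (fun i => by rw [Perm.mul_apply, swap_col col hc, hπ])
      have h01 : (0 : Fin (m + 2)) ≠ 1 := by simp
      obtain ⟨κ, -, hκ0, hκ1⟩ := exists_two (fun _ : Fin (m + 2) => (0 : Fin 1)) h01 hp.symm
        rfl rfl
      obtain ⟨s, hs⟩ := perm_surjective (m + 1) κ
      have hs0 : perm (m + 1) (s⁻¹)⁻¹ 0 = p := by rw [inv_inv, hs, hκ0]
      have hs1 : perm (m + 1) (s⁻¹)⁻¹ 1 = π p := by rw [inv_inv, hs, hκ1]
      have hcc : cp col s⁻¹ = cq col s⁻¹ := by
        unfold cp cq; rw [hs0, hs1, hc]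
      refine ⟨(s⁻¹)⁻¹ * σ 0 * s⁻¹ * β, T.mul_mem ((hT _).2 ⟨(e1_mem_iff _).2 hcc, h1 _ hcc⟩) hβ,
        ?_⟩
      rw [map_mul, perm_e1, hs0, hs1, hβ2, ← mul_assoc, swap_mul_self, one_mul]
  ext ⟨β, hβ⟩
  obtain ⟨β', hβ', hβ2⟩ := hyoung _ (perm (m + 1) β) rfl hβ
  have h3 : β'⁻¹ * β ∈ T := by
    apply hsq
    apply mem_sqN_of_perm
    rw [map_mul, map_inv, hβ2, inv_mul_cancel]
  have h4 := T.mul_mem hβ' h3
  rw [mul_inv_cancel_left] at h4
  obtain ⟨_, h⟩ := (hT _).1 h4
  exact h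

/-! ### The crossing numbers of coloured braids -/

variable (col) in
/-- number of crossings of strings of colours `c` and `d` -/
def NN (c d : Fin k) (β : Braid (m + 1)) : ℤ :=
  ∑ x : Fin (m + 2) × Fin (m + 2), if col x.1 = c ∧ col x.2 = d then K β x.1 x.2 else 0

lemma NN_reindex (c d : Fin k) (τ : Perm (Fin (m + 2))) (hτ : ∀ i, col (τ i) = col i)
    (f : Fin (m + 2) → Fin (m + 2) → ℤ) :
    (∑ x : Fin (m + 2) × Fin (m + 2), if col x.1 = c ∧ col x.2 = d then f (τ x.1) (τ x.2)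
      else 0) =
    ∑ x : Fin (m + 2) × Fin (m + 2), if col x.1 = c ∧ col x.2 = d then f x.1 x.2 else 0 := by
  rw [← Equiv.sum_comp (Equiv.prodCongr τ τ)
    (fun x => if col x.1 = c ∧ col x.2 = d then f x.1 x.2 else 0)]
  apply Finset.sum_congr rfl
  intro x _
  simp only [Equiv.prodCongr_apply, Prod.map_fst, Prod.map_snd, hτ]

lemma NN_mul (c d : Fin k) (a b : Braid (m + 1)) (hb : b ∈ colBraid col) :
    NN col c d (a * b) = NN col c d a + NN col c d b := by
  unfold NN
  simp only [K_mul]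
  have h1 : ∀ x : Fin (m + 2) × Fin (m + 2), (if col x.1 = c ∧ col x.2 = d then
      K b x.1 x.2 + K a (perm (m + 1) b x.1) (perm (m + 1) b x.2) else 0) =
      (if col x.1 = c ∧ col x.2 = d then K b x.1 x.2 else 0) +
      (if col x.1 = c ∧ col x.2 = d then K a (perm (m + 1) b x.1) (perm (m + 1) b x.2)
        else 0) := by
    intro x
    split_ifs <;> simp
  simp only [h1]
  rw [Finset.sum_add_distrib, add_comm,
    NN_reindex c d (perm (m + 1) b) hb (fun p q => K a p q)]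

lemma NN_one (c d : Fin k) : NN col c d (1 : Braid (m + 1)) = 0 := by
  unfold NN
  simp [K_one]

lemma NN_conj (c d : Fin k) (t x : Braid (m + 1)) (hx : t⁻¹ * x * t ∈ colBraid col) :
    NN col c d (t⁻¹ * x * t) = ∑ y : Fin (m + 2) × Fin (m + 2),
      if col y.1 = c ∧ col y.2 = d then K x (perm (m + 1) t y.1) (perm (m + 1) t y.2)
        else 0 := by
  have h1 : ∀ p q, K (t⁻¹ * x * t) p q = K x (perm (m + 1) t p) (perm (m + 1) t q) +
      (K t p q - K t (perm (m + 1) (t⁻¹ * x * t) p) (perm (m + 1) (t⁻¹ * x * t) q)) := by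
    intro p q
    rw [K_mul, K_mul, K_inv, map_mul (perm (m + 1)) (t⁻¹ * x) t, Perm.mul_apply,
      Perm.mul_apply, map_mul (perm (m + 1)) t⁻¹ x, Perm.mul_apply, Perm.mul_apply]
    ring
  unfold NN
  simp only [h1]
  have h2 : ∀ y : Fin (m + 2) × Fin (m + 2), (if col y.1 = c ∧ col y.2 = d then
      K x (perm (m + 1) t y.1) (perm (m + 1) t y.2) + (K t y.1 y.2 -
        K t (perm (m + 1) (t⁻¹ * x * t) y.1) (perm (m + 1) (t⁻¹ * x * t) y.2)) else 0) =
      (if col y.1 = c ∧ col y.2 = d then K x (perm (m + 1) t y.1) (perm (m + 1) t y.2)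
        else 0) + ((if col y.1 = c ∧ col y.2 = d then K t y.1 y.2 else 0) -
      (if col y.1 = c ∧ col y.2 = d then K t (perm (m + 1) (t⁻¹ * x * t) y.1)
        (perm (m + 1) (t⁻¹ * x * t) y.2) else 0)) := by
    intro y
    split_ifs <;> simp
  simp only [h2]
  rw [Finset.sum_add_distrib, Finset.sum_sub_distrib,
    NN_reindex c d (perm (m + 1) (t⁻¹ * x * t)) hx (fun p q => K t p q), sub_self, add_zero]

lemma NN_e1 (c d : Fin k) (t : Braid (m + 1)) (ht : cp col t = cq col t) :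
    NN col c d (t⁻¹ * σ 0 * t) = if cp col t = c ∧ cq col t = d then 1 else 0 := by
  rw [NN_conj c d t _ ((e1_mem_iff t).2 ht)]
  simp only [K_σ]
  rw [Finset.sum_eq_single (perm (m + 1) t⁻¹ 0, perm (m + 1) t⁻¹ 1)]
  · simp only [perm_inv_apply]
    rw [if_pos (show (0 : Fin (m + 2)) = Fin.castSucc 0 ∧ (1 : Fin (m + 2)) = Fin.succ 0 from
      ⟨rfl, rfl⟩)]
    rfl
  · intro y _ hy
    rw [if_neg (c := perm (m + 1) t y.1 = _ ∧ _), ite_self]
    rintro ⟨a, b⟩
    apply hy
    ext1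
    · rw [← perm_apply_inv t y.1, a]; rfl
    · rw [← perm_apply_inv t y.2, b]; rfl
  · intro h; exact absurd (Finset.mem_univ _) h

lemma NN_e2 (c d : Fin k) (t : Braid (m + 1)) :
    NN col c d (t⁻¹ * (σ 0 * σ 0) * t) = (if cp col t = c ∧ cq col t = d then 1 else 0) +
      (if cq col t = c ∧ cp col t = d then 1 else 0) := by
  rw [NN_conj c d t _ (e2_mem t)]
  have h0 : ∀ x : Fin (m + 2), swap (Fin.castSucc (0 : Fin (m + 1))) (Fin.succ 0) x =
      Fin.castSucc 0 ↔ x = 1 := by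
    intro x; rw [swap_apply_eq_iff, swap_apply_left]; rfl
  have h1 : ∀ x : Fin (m + 2), swap (Fin.castSucc (0 : Fin (m + 1))) (Fin.succ 0) x =
      Fin.succ 0 ↔ x = 0 := by
    intro x; rw [swap_apply_eq_iff, swap_apply_right]; rfl
  have h2 : ∀ p q : Fin (m + 2), K (σ 0 * σ 0 : Braid (m + 1)) p q =
      (if p = 0 ∧ q = 1 then 1 else 0) + (if p = 1 ∧ q = 0 then 1 else 0) := by
    intro p q
    rw [K_mul, K_σ, K_σ, perm_σ]
    simp only [h0, h1]
    rfl
  simp only [h2]
  have h3 : ∀ y : Fin (m + 2) × Fin (m + 2), (if col y.1 = c ∧ col y.2 = d then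
      ((if perm (m + 1) t y.1 = 0 ∧ perm (m + 1) t y.2 = 1 then (1 : ℤ) else 0) +
      (if perm (m + 1) t y.1 = 1 ∧ perm (m + 1) t y.2 = 0 then 1 else 0)) else 0) =
      (if col y.1 = c ∧ col y.2 = d then
        (if perm (m + 1) t y.1 = 0 ∧ perm (m + 1) t y.2 = 1 then (1 : ℤ) else 0) else 0) +
      (if col y.1 = c ∧ col y.2 = d then
        (if perm (m + 1) t y.1 = 1 ∧ perm (m + 1) t y.2 = 0 then (1 : ℤ) else 0) else 0) := by
    intro y
    split_ifs <;> simp
  simp only [h3]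
  rw [Finset.sum_add_distrib]
  congr 1
  · rw [Finset.sum_eq_single (perm (m + 1) t⁻¹ 0, perm (m + 1) t⁻¹ 1)]
    · simp only [perm_inv_apply, and_self, if_true]
      rfl
    · intro y _ hy
      rw [if_neg (c := perm (m + 1) t y.1 = 0 ∧ _), ite_self]
      rintro ⟨a, b⟩
      apply hy
      ext1
      · rw [← perm_apply_inv t y.1, a]
      · rw [← perm_apply_inv t y.2, b]
    · intro h; exact absurd (Finset.mem_univ _) h
  · rw [Finset.sum_eq_single (perm (m + 1) t⁻¹ 1, perm (m + 1) t⁻¹ 0)]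
    · simp only [perm_inv_apply, and_self, if_true]
      rfl
    · intro y _ hy
      rw [if_neg (c := perm (m + 1) t y.1 = 1 ∧ _), ite_self]
      rintro ⟨a, b⟩
      apply hy
      ext1
      · rw [← perm_apply_inv t y.1, a]
      · rw [← perm_apply_inv t y.2, b]
    · intro h; exact absurd (Finset.mem_univ _) h

variable (col) in
/-- the crossing numbers as homomorphisms -/
def NNhom (c d : Fin k) : colBraid col →* Multiplicative ℤ where
  toFun β := Multiplicative.ofAdd (NN col c d β)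
  map_one' := by
    change Multiplicative.ofAdd (NN col c d (1 : Braid (m + 1))) = 1
    rw [NN_one]; rfl
  map_mul' a b := by
    change Multiplicative.ofAdd (NN col c d ((a : Braid (m + 1)) * b)) = _
    rw [NN_mul c d _ _ b.2]; rfl

/-- **The first homology of a coloured braid group is detected by the crossing numbers.** -/
theorem colBraid_ab (β : colBraid col) (h : ∀ c d, NN col c d β = 0) :
    Abelianization.of β = 1 := by
  classical
  let M := Abelianization (colBraid col)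
  let h0 : colBraid col →* M := Abelianization.of
  let v1 : Braid (m + 1) → M := fun t =>
    if ht : t⁻¹ * σ 0 * t ∈ colBraid col then h0 ⟨_, ht⟩ else 1
  let v2 : Braid (m + 1) → M := fun t => h0 ⟨_, e2_mem t⟩
  have hv1 : ∀ t (ht : t⁻¹ * σ 0 * t ∈ colBraid col), v1 t = h0 ⟨_, ht⟩ := fun t ht => dif_pos ht
  have hv2 : ∀ t, v2 t = h0 ⟨_, e2_mem t⟩ := fun t => rfl
  have T1 : ∀ t t', cp col t = cq col t → cp col t' = cq col t' → cp col t = cp col t' →
      v1 t = v1 t' := by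
    intro t t' a b c
    obtain ⟨w, hw, e⟩ := conj_in (col := col) t t' (Or.inl ⟨c, by rw [← a, ← b, c]⟩)
    rw [hv1 t ((e1_mem_iff t).2 a), hv1 t' ((e1_mem_iff t').2 b)]
    have e' : (⟨_, (e1_mem_iff t').2 b⟩ : colBraid col) =
        ⟨w, hw⟩ * ⟨_, (e1_mem_iff t).2 a⟩ * (⟨w, hw⟩)⁻¹ := Subtype.ext e.symm
    rw [e', map_mul, map_mul, map_inv, mul_comm, inv_mul_cancel_left]
  have T2 : ∀ t t', ((cp col t = cp col t' ∧ cq col t = cq col t') ∨
      (cp col t = cq col t' ∧ cq col t = cp col t')) → v2 t = v2 t' := by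
    intro t t' a
    obtain ⟨w, hw, e⟩ := conj_in (col := col) t t' a
    rw [hv2, hv2]
    have e' : (⟨_, e2_mem t'⟩ : colBraid col) =
        ⟨w, hw⟩ * ⟨_, e2_mem t⟩ * (⟨w, hw⟩)⁻¹ := by
      apply Subtype.ext
      change t'⁻¹ * (σ 0 * σ 0) * t' = w * (t⁻¹ * (σ 0 * σ 0) * t) * w⁻¹
      have e1 : t'⁻¹ * (σ 0 * σ 0) * t' = (t'⁻¹ * σ 0 * t') * (t'⁻¹ * σ 0 * t') := by group
      rw [e1, ← e]
      group
    rw [e', map_mul, map_mul, map_inv, mul_comm, inv_mul_cancel_left]
  have T3 : ∀ t, cp col t = cq col t → v2 t = v1 t * v1 t := by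
    intro t a
    rw [hv2, hv1 t ((e1_mem_iff t).2 a), ← map_mul]
    congr 1
    apply Subtype.ext
    change t⁻¹ * (σ 0 * σ 0) * t = (t⁻¹ * σ 0 * t) * (t⁻¹ * σ 0 * t)
    group
  let W : Fin k → Fin k → M := fun c d =>
    if hc : ∃ t, cp col t = c ∧ cq col t = d then
      (if c = d then v1 hc.choose else if c < d then v2 hc.choose else 1) else 1
  have hW : ∀ t, cp col t = cq col t → W (cp col t) (cq col t) = v1 t := by
    intro t a
    have hc : ∃ s, cp col s = cp col t ∧ cq col s = cq col t := ⟨t, rfl, rfl⟩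
    have h1 : W (cp col t) (cq col t) = v1 hc.choose := by
      change (if hc : ∃ s, cp col s = cp col t ∧ cq col s = cq col t then
        (if cp col t = cq col t then v1 hc.choose else
          if cp col t < cq col t then v2 hc.choose else 1) else 1) = _
      rw [dif_pos hc, if_pos a]
    rw [h1]
    obtain ⟨h2, h3⟩ := hc.choose_spec
    exact T1 _ _ (by rw [h2, h3, a]) a h2
  have hW2 : ∀ t, cp col t < cq col t → W (cp col t) (cq col t) = v2 t := by
    intro t a
    have hc : ∃ s, cp col s = cp col t ∧ cq col s = cq col t := ⟨t, rfl, rfl⟩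
    have h1 : W (cp col t) (cq col t) = v2 hc.choose := by
      change (if hc : ∃ s, cp col s = cp col t ∧ cq col s = cq col t then
        (if cp col t = cq col t then v1 hc.choose else
          if cp col t < cq col t then v2 hc.choose else 1) else 1) = _
      rw [dif_pos hc, if_neg a.ne, if_pos a]
    rw [h1]
    exact T2 _ _ (Or.inl hc.choose_spec)
  have hW3 : ∀ c d, d < c → W c d = 1 := by
    intro c d hcd
    change (if hc : ∃ s, cp col s = c ∧ cq col s = d then
        (if c = d then v1 hc.choose else if c < d then v2 hc.choose else 1) else 1) = _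
    split_ifs with h1 h2 h3
    · exact absurd h2 hcd.ne'
    · exact absurd h3 hcd.le.not_gt
    · rfl
    · rfl
  -- swapping the two strings
  have hflip : ∀ t : Braid (m + 1), cp col (σ 0 * t) = cq col t ∧
      cq col (σ 0 * t) = cp col t := by
    intro t
    unfold cp cq
    rw [mul_inv_rev, map_mul, Perm.mul_apply, Perm.mul_apply]
    have e0 : perm (m + 1) (σ 0)⁻¹ 0 = 1 := by
      rw [map_inv, perm_σ, swap_inv]; exact swap_apply_left _ _
    have e1 : perm (m + 1) (σ 0)⁻¹ 1 = 0 := by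
      rw [map_inv, perm_σ, swap_inv]; exact swap_apply_right _ _
    rw [e0, e1]
    exact ⟨rfl, rfl⟩
  let Ψ : colBraid col →* M :=
    ∏ c, ∏ d, (zpowersHom M (W c d)).comp (NNhom col c d)
  have hΨ : ∀ x, Ψ x = ∏ c, ∏ d, W c d ^ NN col c d x := by
    intro x
    simp only [Ψ, MonoidHom.finsetProd_apply, MonoidHom.comp_apply]
    rfl
  have hsum : ∀ (a b : Fin k), (∏ c, ∏ d, W c d ^ (if a = c ∧ b = d then (1 : ℤ) else 0)) =
      W a b := by
    intro a b
    rw [Finset.prod_eq_single a, Finset.prod_eq_single b]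
    · simp
    · intro d _ hd
      rw [if_neg (fun h => hd h.2.symm), zpow_zero]
    · intro h; exact absurd (Finset.mem_univ _) h
    · intro c _ hc
      apply Finset.prod_eq_one
      intro d _
      rw [if_neg (fun h => hc h.1.symm), zpow_zero]
    · intro h; exact absurd (Finset.mem_univ _) h
  have heq : Ψ = h0 := by
    apply hom_eq
    · intro t
      rw [hΨ]
      change _ = v2 t
      simp only [NN_e2, zpow_add, Finset.prod_mul_distrib]
      rw [hsum, hsum]
      rcases lt_trichotomy (cp col t) (cq col t) with h1 | h1 | h1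
      · rw [hW2 t h1, hW3 _ _ h1, mul_one]
      · rw [T3 t h1, ← hW t h1, h1]
      · have h2 := hflip t
        have h3 := hW2 (σ 0 * t) (by rw [h2.1, h2.2]; exact h1)
        rw [h2.1, h2.2] at h3
        rw [hW3 _ _ h1, one_mul, h3]
        exact T2 _ _ (Or.inr h2)
    · intro t ht
      rw [hΨ]
      have h1 := hv1 t ((e1_mem_iff t).2 ht)
      change _ = h0 _
      rw [← h1]
      simp only [NN_e1 _ _ t ht]
      rw [hsum, hW t ht]
  have h1 : h0 β = Ψ β := by rw [heq]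
  change h0 β = 1
  rw [h1, hΨ]
  simp [h]

end main

end Pool.Agent.Lib.MP_9ed307_gt
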