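import Pool.Agent.Lib.MP_9ed307_gt.Defs

namespace Pool.Agent.Lib.MP_9ed307_gt

open Equiv

/-! The kernel of `Braid m → Perm (Fin (m + 1))` is the normal closure of the squares of the
generators. -/

lemma braid_ind {m : ℕ} {P : Braid m → Prop} (h1 : P 1)
    (hg : ∀ i β, P β → P (β * σ i)) (hi : ∀ i β, P β → P (β * (σ i)⁻¹)) : ∀ β, P β := by
  intro β
  have hβ : β ∈ Subgroup.closure (Set.range (PresentedGroup.of (rels := artinRels m))) := by
    rw [PresentedGroup.closure_range_of]; trivial
  induction hβ using Subgroup.closure_induction_right with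
  | one => exact h1
  | mul_right x hx y hy ih =>
    obtain ⟨i, rfl⟩ := hy
    exact hg i x ih
  | mul_inv_cancel x hx y hy ih =>
    obtain ⟨i, rfl⟩ := hy
    exact hi i x ih

/-- normal closure of the squares -/
def sqN (m : ℕ) : Subgroup (Braid m) :=
  Subgroup.normalClosure (Set.range fun i : Fin m => σ i * σ i)

instance (m : ℕ) : (sqN m).Normal := by unfold sqN; infer_instance

lemma sq_mem_sqN {m : ℕ} (i : Fin m) : σ i * σ i ∈ sqN m :=
  Subgroup.subset_normalClosure ⟨i, rfl⟩

/-- adding a string -/
def up (m : ℕ) : Braid m →* Braid (m + 1) :=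
  PresentedGroup.toGroup (f := fun i : Fin m => σ i.castSucc) (by
    apply lift_artin
    · intro i j h
      exact σ_comm (by simpa using h)
    · intro i j h
      exact σ_braid (by simpa using h))

lemma up_σ {m : ℕ} (i : Fin m) : up m (σ i) = σ i.castSucc := PresentedGroup.toGroup.of _

lemma up_sqN {m : ℕ} {β : Braid m} (h : β ∈ sqN m) : up m β ∈ sqN (m + 1) := by
  have h1 : sqN m ≤ (sqN (m + 1)).comap (up m) := by
    apply Subgroup.normalClosure_le_normal
    rintro _ ⟨i, rfl⟩
    change up m (σ i * σ i) ∈ sqN (m + 1)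
    rw [map_mul, up_σ]
    exact sq_mem_sqN _
  exact h1 h

lemma perm_up {m : ℕ} (β : Braid m) :
    (∀ x : Fin (m + 1), perm (m + 1) (up m β) x.castSucc = (perm m β x).castSucc) ∧
      perm (m + 1) (up m β) (Fin.last _) = Fin.last _ := by
  have key : ∀ i : Fin m, (∀ x : Fin (m + 1), swap i.castSucc.castSucc i.castSucc.succ
      x.castSucc = (swap i.castSucc i.succ x).castSucc) ∧
      swap i.castSucc.castSucc i.castSucc.succ (Fin.last (m + 1)) = Fin.last (m + 1) := by
    intro i
    constructor
    · intro x
      rw [Fin.succ_castSucc]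
      by_cases h1 : x = i.castSucc
      · rw [h1, swap_apply_left, swap_apply_left]
      · by_cases h2 : x = i.succ
        · rw [h2, swap_apply_right, swap_apply_right]
        · rw [swap_apply_of_ne_of_ne h1 h2, swap_apply_of_ne_of_ne]
          · intro h; exact h1 (Fin.castSucc_injective _ h)
          · intro h; exact h2 (Fin.castSucc_injective _ h)
    · apply swap_apply_of_ne_of_ne
      · exact (Fin.castSucc_lt_last _).ne'
      · rw [Fin.succ_castSucc]
        exact (Fin.castSucc_lt_last _).ne'
  induction β using braid_ind with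
  | h1 => simp
  | hg i β ih =>
    constructor
    · intro x
      rw [map_mul, map_mul, Perm.mul_apply, up_σ, perm_σ, (key i).1, ih.1, map_mul,
        Perm.mul_apply, perm_σ]
    · rw [map_mul, map_mul, Perm.mul_apply, up_σ, perm_σ, (key i).2, ih.2]
  | hi i β ih =>
    constructor
    · intro x
      rw [map_mul, map_mul, Perm.mul_apply, map_inv, map_inv, up_σ, perm_σ, swap_inv,
        (key i).1, ih.1, map_mul, Perm.mul_apply, map_inv, perm_σ, swap_inv]
    · rw [map_mul, map_mul, Perm.mul_apply, map_inv, map_inv, up_σ, perm_σ, swap_inv,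
        (key i).2, ih.2]

/-! ### Normal forms in a group with the relations of the symmetric group -/

section nf
variable {Q : Type*} [Group Q] (m : ℕ) (s : ℕ → Q)

/-- `s m * s (m - 1) * ⋯` with `j` factors -/
def cc : ℕ → Q
  | 0 => 1
  | j + 1 => cc j * s (m - j)

variable {m s} (hs : ∀ i, s i * s i = 1) (hc : ∀ i j, i + 2 ≤ j → s i * s j = s j * s i)
  (hb : ∀ i, i < m → s i * s (i + 1) * s i = s (i + 1) * s i * s (i + 1))

include hc in
lemma cc_low {j i : ℕ} (hj : j ≤ m + 1) (h : i + j < m) :
    cc m s j * s i = s i * cc m s j := by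
  induction j with
  | zero => simp [cc]
  | succ j ih =>
    rw [cc, mul_assoc, ← hc i (m - j) (by omega), ← mul_assoc, ih (by omega) (by omega),
      mul_assoc]

include hc hb in
lemma cc_high {j i : ℕ} (hj : j ≤ m + 1) (hi : i ≤ m) (h : m + 1 < i + j) :
    cc m s j * s i = s (i - 1) * cc m s j := by
  induction j with
  | zero => omega
  | succ j ih =>
    by_cases h2 : i + j = m + 1
    · obtain ⟨j, rfl⟩ : ∃ j', j = j' + 1 := ⟨j - 1, by omega⟩
      have e1 : m - j = i := by omega
      have e2 : m - (j + 1) = i - 1 := by omega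
      obtain ⟨i, rfl⟩ : ∃ i', i = i' + 1 := ⟨i - 1, by omega⟩
      have e3 := hb i (by omega)
      simp only [cc, e1, e2, Nat.add_sub_cancel]
      rw [mul_assoc (cc m s j), mul_assoc (cc m s j), ← e3, ← mul_assoc, ← mul_assoc,
        cc_low hc (by omega) (by omega)]
      simp only [mul_assoc]
    · rw [cc, mul_assoc, hc (m - j) i (by omega), ← mul_assoc, ih (by omega) (by omega),
        mul_assoc]

lemma cc_succ {j i : ℕ} (h : i + j = m) : cc m s j * s i = cc m s (j + 1) := by
  rw [cc]; congr 2; omega

include hs in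
lemma cc_pred {j i : ℕ} (h : i + (j + 1) = m + 1) : cc m s (j + 1) * s i = cc m s j := by
  rw [cc]
  have : m - j = i := by omega
  rw [this, mul_assoc, hs, mul_one]

end nf

/-- **The kernel of the permutation.** -/
theorem mem_sqN_of_perm : ∀ (m : ℕ) (β : Braid m), perm m β = 1 → β ∈ sqN m := by
  intro m
  induction m with
  | zero =>
    intro β _
    induction β using braid_ind with
    | h1 => exact (sqN 0).one_mem
    | hg i => exact i.elim0
    | hi i => exact i.elim0
  | succ m IH =>
    let Q := Braid (m + 1) ⧸ sqN (m + 1)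
    let q : Braid (m + 1) →* Q := QuotientGroup.mk' (sqN (m + 1))
    let s : ℕ → Q := fun i => if h : i < m + 1 then q (σ ⟨i, h⟩) else 1
    have s_of : ∀ i (h : i < m + 1), s i = q (σ ⟨i, h⟩) := fun i h => dif_pos h
    have s_no : ∀ i, ¬ i < m + 1 → s i = 1 := fun i h => dif_neg h
    have hs : ∀ i, s i * s i = 1 := by
      intro i
      by_cases h : i < m + 1
      · rw [s_of i h, ← map_mul]
        exact (QuotientGroup.eq_one_iff _).2 (sq_mem_sqN _)
      · rw [s_no i h, mul_one]
    have hc : ∀ i j, i + 2 ≤ j → s i * s j = s j * s i := by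
      intro i j h
      by_cases hj : j < m + 1
      · rw [s_of j hj, s_of i (by omega), ← map_mul, ← map_mul, σ_comm]
        exact h
      · rw [s_no j hj, mul_one, one_mul]
    have hb : ∀ i, i < m → s i * s (i + 1) * s i = s (i + 1) * s i * s (i + 1) := by
      intro i h
      rw [s_of i (by omega), s_of (i + 1) (by omega), ← map_mul, ← map_mul, ← map_mul,
        ← map_mul, σ_braid rfl]
    have hX : ∀ β : Braid (m + 1), ∃ (β' : Braid m) (j : ℕ), j ≤ m + 1 ∧
        q β = q (up m β') * cc m s j := by
      have step : ∀ (i : Fin (m + 1)) (β : Braid (m + 1)), (∃ (β' : Braid m) (j : ℕ),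
          j ≤ m + 1 ∧ q β = q (up m β') * cc m s j) → ∃ (β' : Braid m) (j : ℕ), j ≤ m + 1 ∧
          q β * q (σ i) = q (up m β') * cc m s j := by
        rintro i β ⟨β', j, hj, hβ⟩
        have hi := s_of i i.2
        rw [← hi, hβ, mul_assoc]
        have hi2 := i.2
        rcases lt_trichotomy ((i : ℕ) + j) m with h | h | h
        · refine ⟨β' * σ ⟨i, by omega⟩, j, hj, ?_⟩
          rw [cc_low hc hj h, ← mul_assoc, map_mul, map_mul, up_σ, hi]
          rfl
        · exact ⟨β', j + 1, by omega, by rw [cc_succ h]⟩
        · rcases Nat.lt_or_ge (m + 1) ((i : ℕ) + j) with h' | h'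
          · refine ⟨β' * σ ⟨(i : ℕ) - 1, by omega⟩, j, hj, ?_⟩
            rw [cc_high hc hb hj (by omega) h', ← mul_assoc, map_mul, map_mul, up_σ,
              s_of ((i : ℕ) - 1) (by omega)]
            rfl
          · obtain ⟨j, rfl⟩ : ∃ j', j = j' + 1 := ⟨j - 1, by omega⟩
            exact ⟨β', j, by omega, by rw [cc_pred hs (by omega)]⟩
      intro β
      induction β using braid_ind with
      | h1 => exact ⟨1, 0, by omega, by simp [cc]⟩
      | hg i β ih => rw [map_mul]; exact step i β ih
      | hi i β ih =>
        have h1 : q (σ i)⁻¹ = q (σ i) := by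
          rw [map_inv]
          apply inv_eq_of_mul_eq_one_left
          have := hs i
          rwa [s_of i i.2] at this
        rw [map_mul, h1]
        exact step i β ih
    intro β hβ
    obtain ⟨β', j, hj, h⟩ := hX β
    -- the permutation on the quotient
    let p : Q →* Perm (Fin (m + 2)) := QuotientGroup.lift (sqN (m + 1)) (perm (m + 1)) (by
      intro x hx
      have h1 : sqN (m + 1) ≤ (perm (m + 1)).ker := by
        apply Subgroup.normalClosure_le_normal
        rintro _ ⟨i, rfl⟩
        change perm (m + 1) (σ i * σ i) = 1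
        rw [map_mul, perm_σ, swap_mul_self]
      exact h1 hx)
    have hp : ∀ x, p (q x) = perm (m + 1) x := fun x => rfl
    have hcc : ∀ j (hj : j ≤ m + 1), p (cc m s j) ⟨m + 1 - j, by omega⟩ = Fin.last _ := by
      intro j
      induction j with
      | zero => intro _; simp [cc, Fin.ext_iff]
      | succ j ih =>
        intro hj
        rw [cc, map_mul, Perm.mul_apply, s_of (m - j) (by omega), hp, perm_σ]
        have e : swap (Fin.castSucc (⟨m - j, by omega⟩ : Fin (m + 1)))
            (Fin.succ (⟨m - j, by omega⟩ : Fin (m + 1))) ⟨m + 1 - (j + 1), by omega⟩ =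
            ⟨m + 1 - j, by omega⟩ := by
          have e1 : (⟨m + 1 - (j + 1), by omega⟩ : Fin (m + 2)) =
              Fin.castSucc (⟨m - j, by omega⟩ : Fin (m + 1)) := by
            ext; simp
          rw [e1, swap_apply_left]
          ext
          simp only [Fin.succ_mk]
          omega
        rw [e]
        exact ih (by omega)
    have h0 : j = 0 := by
      have h1 := congrArg (fun g => p g ⟨m + 1 - j, by omega⟩) h
      simp only [map_mul, Perm.mul_apply, hp, hβ, Perm.one_apply, hcc j hj,
        (perm_up β').2] at h1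
      have := congrArg Fin.val h1
      simp only [Fin.val_last] at this
      omega
    subst h0
    rw [cc, mul_one] at h
    have h1 : perm m β' = 1 := by
      ext x
      have h2 := congrArg p h
      rw [hp, hp, hβ] at h2
      have h3 := (perm_up β').1 x
      rw [← h2, Perm.one_apply] at h3
      rw [Perm.one_apply, ← Fin.val_castSucc, ← h3, Fin.val_castSucc]
    have h2 := up_sqN (IH β' h1)
    have h3 : (up m β')⁻¹ * β ∈ sqN (m + 1) := QuotientGroup.eq.1 h.symm
    have := (sqN (m + 1)).mul_mem h2 h3
    rwa [mul_inv_cancel_left] at this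

lemma perm_surjective (m : ℕ) : Function.Surjective (perm m) := by
  have h : (perm m).range = ⊤ := by
    rw [eq_top_iff]
    intro x _
    have hx : x ∈ Submonoid.closure
        (Set.range fun i : Fin m => swap i.castSucc i.succ) := by
      rw [Perm.mclosure_swap_castSucc_succ]; trivial
    have h2 : Submonoid.closure (Set.range fun i : Fin m => swap i.castSucc i.succ) ≤
        (perm m).range.toSubmonoid := by
      rw [Submonoid.closure_le]
      rintro _ ⟨i, rfl⟩
      exact ⟨σ i, perm_σ i⟩
    exact h2 hx
  exact MonoidHom.range_eq_top.1 h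

end Pool.Agent.Lib.MP_9ed307_gt
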