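import Pool.Agent.Lib.MP_9ed307_gt.Cox

namespace Pool.Agent.Lib.MP_9ed307_gt

open Equiv

section Ex
variable {α : Type*} [DecidableEq α]

/-- the elementary crossing of the strings at `a` and `b` -/
def ex (a b : α) : Perm (α × α × ℤ) where
  toFun x := (swap a b x.1, swap a b x.2.1, x.2.2 + if x.1 = a ∧ x.2.1 = b then 1 else 0)
  invFun x := (swap a b x.1, swap a b x.2.1, x.2.2 - if x.1 = b ∧ x.2.1 = a then 1 else 0)
  left_inv := by
    rintro ⟨p, q, z⟩
    have h1 : swap a b p = b ↔ p = a := by
      rw [swap_apply_eq_iff, swap_apply_right]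
    have h2 : swap a b q = a ↔ q = b := by
      rw [swap_apply_eq_iff, swap_apply_left]
    simp [h1, h2]
  right_inv := by
    rintro ⟨p, q, z⟩
    have h1 : swap a b p = a ↔ p = b := by
      rw [swap_apply_eq_iff, swap_apply_left]
    have h2 : swap a b q = b ↔ q = a := by
      rw [swap_apply_eq_iff, swap_apply_right]
    simp [h1, h2]

lemma ex_apply (a b : α) (p q : α) (z : ℤ) :
    ex a b (p, q, z) = (swap a b p, swap a b q, z + if p = a ∧ q = b then 1 else 0) := rfl

lemma ex_comm {a b c d : α} (h1 : a ≠ c) (h2 : a ≠ d) (h3 : b ≠ c) (h4 : b ≠ d) :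
    ex a b * ex c d = ex c d * ex a b := by
  have hs : swap a b * swap c d = swap c d * swap a b := by
    apply Equiv.Perm.Disjoint.commute
    intro x
    by_cases hx : x = a ∨ x = b
    · right
      apply swap_apply_of_ne_of_ne
      · rintro rfl; rcases hx with hx | hx
        · exact h1 hx.symm
        · exact h3 hx.symm
      · rintro rfl; rcases hx with hx | hx
        · exact h2 hx.symm
        · exact h4 hx.symm
    · left
      push Not at hx
      exact swap_apply_of_ne_of_ne hx.1 hx.2
  have hs' : ∀ x, swap a b (swap c d x) = swap c d (swap a b x) := fun x =>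
    congrArg (fun f : Perm α => f x) hs
  have e1 : ∀ x, swap c d x = a ↔ x = a := by
    intro x; rw [swap_apply_eq_iff, swap_apply_of_ne_of_ne h1 h2]
  have e2 : ∀ x, swap c d x = b ↔ x = b := by
    intro x; rw [swap_apply_eq_iff, swap_apply_of_ne_of_ne h3 h4]
  have e3 : ∀ x, swap a b x = c ↔ x = c := by
    intro x; rw [swap_apply_eq_iff, swap_apply_of_ne_of_ne h1.symm h3.symm]
  have e4 : ∀ x, swap a b x = d ↔ x = d := by
    intro x; rw [swap_apply_eq_iff, swap_apply_of_ne_of_ne h2.symm h4.symm]
  ext1 ⟨p, q, z⟩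
  simp only [Perm.mul_apply, ex_apply, hs', e1, e2, e3, e4]
  refine Prod.ext rfl (Prod.ext rfl ?_)
  simp only
  ring

lemma ex_braid {a b c : α} (h1 : a ≠ b) (h2 : a ≠ c) (h3 : b ≠ c) :
    ex a b * ex b c * ex a b = ex b c * ex a b * ex b c := by
  have hs : swap a b * swap b c * swap a b = swap b c * swap a b * swap b c := by
    rw [swap_mul_swap_mul_swap h1 h2, swap_comm a b, swap_comm b c,
      swap_mul_swap_mul_swap h3.symm h2.symm, swap_comm]
  have hs' : ∀ x, swap a b (swap b c (swap a b x)) = swap b c (swap a b (swap b c x)) :=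
    fun x => congrArg (fun f : Perm α => f x) hs
  have hab : ∀ x, swap a b x = a ↔ x = b := by
    intro x; rw [swap_apply_eq_iff, swap_apply_left]
  have hab' : ∀ x, swap a b x = b ↔ x = a := by
    intro x; rw [swap_apply_eq_iff, swap_apply_right]
  have hac : ∀ x, swap a b x = c ↔ x = c := by
    intro x; rw [swap_apply_eq_iff, swap_apply_of_ne_of_ne h2.symm h3.symm]
  have hba : ∀ x, swap b c x = a ↔ x = a := by
    intro x; rw [swap_apply_eq_iff, swap_apply_of_ne_of_ne h1 h2]
  have hbb : ∀ x, swap b c x = b ↔ x = c := by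
    intro x; rw [swap_apply_eq_iff, swap_apply_left]
  have hbc : ∀ x, swap b c x = c ↔ x = b := by
    intro x; rw [swap_apply_eq_iff, swap_apply_right]
  ext1 ⟨p, q, z⟩
  simp only [Perm.mul_apply, ex_apply, hs', hab, hab', hac, hba, hbb, hbc]
  refine Prod.ext rfl (Prod.ext rfl ?_)
  simp only
  ring

end Ex

/-- The action of the braid group on pairs of points and integers. -/
def cross (m : ℕ) : Braid m →* Perm (Fin (m + 1) × Fin (m + 1) × ℤ) :=
  PresentedGroup.toGroup (f := fun i : Fin m => ex i.castSucc i.succ) (by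
    apply lift_artin
    · intro i j h
      apply ex_comm <;>
        (intro h'; simp only [Fin.ext_iff, Fin.val_castSucc, Fin.val_succ] at h'; omega)
    · intro i j h
      have hij : i.succ = j.castSucc := by
        ext; simpa using h
      rw [hij]
      apply ex_braid <;>
        (intro h'; simp only [Fin.ext_iff, Fin.val_castSucc, Fin.val_succ] at h'; omega))

lemma cross_σ {m : ℕ} (i : Fin m) : cross m (σ i) = ex i.castSucc i.succ :=
  PresentedGroup.toGroup.of _

/-- number of crossings of the strings starting at `p` and `q` (`p` on the left) -/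
def K {m : ℕ} (β : Braid m) (p q : Fin (m + 1)) : ℤ := (cross m β (p, q, 0)).2.2

lemma cross_apply {m : ℕ} (β : Braid m) : ∀ p q z,
    cross m β (p, q, z) = (perm m β p, perm m β q, z + K β p q) := by
  have hmul : ∀ a b : Braid m,
      (∀ p q z, cross m a (p, q, z) = (perm m a p, perm m a q, z + K a p q)) →
      (∀ p q z, cross m b (p, q, z) = (perm m b p, perm m b q, z + K b p q)) →
      (∀ p q z, cross m (a * b) (p, q, z) = (perm m (a * b) p, perm m (a * b) q,
        z + K (a * b) p q)) := by
    intro a b ha hb p q z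
    have h1 : K (a * b) p q = K b p q + K a (perm m b p) (perm m b q) := by
      rw [K, map_mul, Perm.mul_apply, hb, ha]
      simp
    rw [h1, map_mul, map_mul, Perm.mul_apply, Perm.mul_apply, Perm.mul_apply, hb, ha, add_assoc]
  have hσ : ∀ i : Fin m, ∀ p q z,
      cross m (σ i) (p, q, z) = (perm m (σ i) p, perm m (σ i) q, z + K (σ i) p q) := by
    intro i p q z
    rw [K, cross_σ, perm_σ, ex_apply, ex_apply, zero_add]
  have hinv : ∀ i : Fin m, ∀ p q z, cross m (σ i)⁻¹ (p, q, z) =
      (perm m (σ i)⁻¹ p, perm m (σ i)⁻¹ q, z + K (σ i)⁻¹ p q) := by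
    intro i p q z
    have h0 : ∀ p q z, (ex i.castSucc i.succ)⁻¹ (p, q, z) = (swap i.castSucc i.succ p,
      swap i.castSucc i.succ q, z - if p = i.succ ∧ q = i.castSucc then 1 else 0) :=
      fun _ _ _ => rfl
    rw [K, map_inv, map_inv, cross_σ, perm_σ, swap_inv, h0, h0]
    simp only [sub_eq_add_neg, zero_add]
  induction β using braid_ind with
  | h1 => intro p q z; simp [K]
  | hg i β ih => exact hmul _ _ ih (hσ i)
  | hi i β ih => exact hmul _ _ ih (hinv i)

lemma K_one {m : ℕ} (p q : Fin (m + 1)) : K (1 : Braid m) p q = 0 := by simp [K]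

lemma K_mul {m : ℕ} (a b : Braid m) (p q : Fin (m + 1)) :
    K (a * b) p q = K b p q + K a (perm m b p) (perm m b q) := by
  rw [K, map_mul, Perm.mul_apply, cross_apply, cross_apply]
  simp

lemma K_inv {m : ℕ} (a : Braid m) (p q : Fin (m + 1)) :
    K a⁻¹ p q = -K a (perm m a⁻¹ p) (perm m a⁻¹ q) := by
  have h := K_mul a a⁻¹ p q
  rw [mul_inv_cancel, K_one] at h
  linarith

lemma K_σ {m : ℕ} (i : Fin m) (p q : Fin (m + 1)) :
    K (σ i) p q = if p = i.castSucc ∧ q = i.succ then 1 else 0 := by
  rw [K, cross_σ, ex_apply, zero_add]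

lemma K_σ_inv {m : ℕ} (i : Fin m) (p q : Fin (m + 1)) :
    K (σ i)⁻¹ p q = -if p = i.succ ∧ q = i.castSucc then 1 else 0 := by
  rw [K_inv, K_σ, map_inv, perm_σ, swap_inv]
  have h1 : ∀ x, swap i.castSucc i.succ x = i.castSucc ↔ x = i.succ := by
    intro x; rw [swap_apply_eq_iff, swap_apply_left]
  have h2 : ∀ x, swap i.castSucc i.succ x = i.succ ↔ x = i.castSucc := by
    intro x; rw [swap_apply_eq_iff, swap_apply_right]
  simp only [h1, h2]

lemma perm_refl {m : ℕ} (β : Braid m) (x : Fin (m + 1)) :
    perm m (refl m β) x = (perm m β x.rev).rev := by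
  have key : ∀ (i : Fin m) (x : Fin (m + 1)),
      swap i.rev.castSucc i.rev.succ x = (swap i.castSucc i.succ x.rev).rev := by
    intro i x
    have e1 : i.rev.castSucc = i.succ.rev := (Fin.rev_succ i).symm
    have e2 : i.rev.succ = i.castSucc.rev := (Fin.rev_castSucc i).symm
    rw [e1, e2]
    by_cases h1 : x = i.succ.rev
    · rw [h1, swap_apply_left, Fin.rev_rev, swap_apply_right]
    · by_cases h2 : x = i.castSucc.rev
      · rw [h2, swap_apply_right, Fin.rev_rev, swap_apply_left]
      · rw [swap_apply_of_ne_of_ne h1 h2, swap_apply_of_ne_of_ne, Fin.rev_rev]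
        · rintro h; apply h2; rw [← h, Fin.rev_rev]
        · rintro h; apply h1; rw [← h, Fin.rev_rev]
  revert x
  induction β using braid_ind with
  | h1 => intro x; simp
  | hg i β ih =>
    intro x
    rw [map_mul, map_mul, map_mul, refl_σ, map_inv, perm_σ, perm_σ, swap_inv,
      Perm.mul_apply, Perm.mul_apply, ih, key, Fin.rev_rev]
  | hi i β ih =>
    intro x
    rw [map_mul, map_mul, map_mul, map_inv, map_inv, map_inv, refl_σ, map_inv, perm_σ, perm_σ,
      inv_inv, swap_inv, Perm.mul_apply, Perm.mul_apply, ih, key, Fin.rev_rev]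

lemma K_refl {m : ℕ} (β : Braid m) (p q : Fin (m + 1)) :
    K (refl m β) p q = -K β p.rev q.rev := by
  have rr : ∀ x y : Fin (m + 1), x = y.rev ↔ x.rev = y := by
    intro x y
    constructor
    · rintro rfl; rw [Fin.rev_rev]
    · rintro rfl; rw [Fin.rev_rev]
  revert p q
  induction β using braid_ind with
  | h1 => intro p q; rw [map_one, K_one, K_one, neg_zero]
  | hg i β ih =>
    intro p q
    rw [map_mul, K_mul, K_mul, ih, refl_σ, K_σ_inv, K_σ, map_inv, perm_σ, swap_inv, perm_σ]
    have e1 : i.rev.castSucc = i.succ.rev := (Fin.rev_succ i).symm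
    have e2 : i.rev.succ = i.castSucc.rev := (Fin.rev_castSucc i).symm
    have key : ∀ x : Fin (m + 1),
        (swap i.rev.castSucc i.rev.succ x).rev = swap i.castSucc i.succ x.rev := by
      intro x
      have := perm_refl (σ i) x
      rw [refl_σ, map_inv, perm_σ, perm_σ, swap_inv] at this
      rw [this, Fin.rev_rev]
    rw [key, key, e1, e2]
    simp only [rr]
    ring
  | hi i β ih =>
    intro p q
    rw [map_mul, K_mul, K_mul, ih, map_inv, refl_σ, inv_inv, K_σ_inv, K_σ, map_inv, perm_σ,
      perm_σ, swap_inv]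
    have e1 : i.rev.castSucc = i.succ.rev := (Fin.rev_succ i).symm
    have e2 : i.rev.succ = i.castSucc.rev := (Fin.rev_castSucc i).symm
    have key : ∀ x : Fin (m + 1),
        (swap i.rev.castSucc i.rev.succ x).rev = swap i.castSucc i.succ x.rev := by
      intro x
      have := perm_refl (σ i) x
      rw [refl_σ, map_inv, perm_σ, perm_σ, swap_inv] at this
      rw [this, Fin.rev_rev]
    rw [key, key, e1, e2]
    simp only [rr]
    ring

/-- order change -/
lemma K_symm {m : ℕ} (β : Braid m) (p q : Fin (m + 1)) (hpq : p ≠ q) :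
    K β p q - K β q p = (if p < q then 1 else 0) -
      (if perm m β p < perm m β q then 1 else 0) := by
  have key : ∀ (i : Fin m) (x y : Fin (m + 1)), x ≠ y →
      (if x = i.castSucc ∧ y = i.succ then (1 : ℤ) else 0) -
        (if y = i.castSucc ∧ x = i.succ then 1 else 0) =
      (if x < y then 1 else 0) -
        (if swap i.castSucc i.succ x < swap i.castSucc i.succ y then 1 else 0) := by
    intro i x y hxy
    have hxy' : (x : ℕ) ≠ y := fun h => hxy (Fin.ext h)
    simp only [swap_apply_def, Fin.ext_iff, Fin.lt_def, apply_ite Fin.val, Fin.val_castSucc,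
      Fin.val_succ]
    split_ifs <;> omega
  have hmul : ∀ a b : Braid m, (∀ p q, p ≠ q → K a p q - K a q p = (if p < q then 1 else 0) -
        (if perm m a p < perm m a q then 1 else 0)) →
      (∀ p q, p ≠ q → K b p q - K b q p = (if p < q then 1 else 0) -
        (if perm m b p < perm m b q then 1 else 0)) →
      (∀ p q, p ≠ q → K (a * b) p q - K (a * b) q p = (if p < q then 1 else 0) -
        (if perm m (a * b) p < perm m (a * b) q then 1 else 0)) := by
    intro a b ha hb p q hpq
    have h1 := ha (perm m b p) (perm m b q) (fun h => hpq ((perm m b).injective h))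
    have h2 := hb p q hpq
    rw [K_mul, K_mul, map_mul, Perm.mul_apply, Perm.mul_apply]
    linarith
  have hσ : ∀ i : Fin m, ∀ p q, p ≠ q → K (σ i) p q - K (σ i) q p =
      (if p < q then 1 else 0) - (if perm m (σ i) p < perm m (σ i) q then 1 else 0) := by
    intro i p q hpq
    rw [K_σ, K_σ, perm_σ]
    exact key i p q hpq
  have hinv : ∀ a : Braid m, (∀ p q, p ≠ q → K a p q - K a q p = (if p < q then 1 else 0) -
        (if perm m a p < perm m a q then 1 else 0)) →
      ∀ p q, p ≠ q → K a⁻¹ p q - K a⁻¹ q p = (if p < q then 1 else 0) -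
        (if perm m a⁻¹ p < perm m a⁻¹ q then 1 else 0) := by
    intro a ha p q hpq
    have h1 := ha (perm m a⁻¹ p) (perm m a⁻¹ q) (fun h => hpq ((perm m a⁻¹).injective h))
    have h2 : ∀ x, perm m a (perm m a⁻¹ x) = x := by
      intro x
      rw [← Perm.mul_apply, ← map_mul, mul_inv_cancel, map_one, Perm.one_apply]
    rw [h2, h2] at h1
    rw [K_inv, K_inv]
    linarith
  revert p q
  induction β using braid_ind with
  | h1 => intro p q hpq; simp [K_one]
  | hg i β ih => exact fun p q h => hmul _ _ ih (hσ i) p q h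
  | hi i β ih => exact fun p q h => hmul _ _ ih (hinv _ (hσ i)) p q h

end Pool.Agent.Lib.MP_9ed307_gt
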