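import Mathlib

namespace Pool.Agent.Lib.MP_9ed307_gt

open Equiv

/-! ### Braid groups -/

/-- Artin's relations for the generators `σ_0, …, σ_{m-1}` of the braid group on `m + 1`
strings. -/
def artinRels (m : ℕ) : Set (FreeGroup (Fin m)) :=
  {w | ∃ i j : Fin m, (i : ℕ) + 2 ≤ j ∧
      w = FreeGroup.of i * FreeGroup.of j * (FreeGroup.of i)⁻¹ * (FreeGroup.of j)⁻¹} ∪
  {w | ∃ i j : Fin m, (i : ℕ) + 1 = j ∧
      w = FreeGroup.of i * FreeGroup.of j * FreeGroup.of i *
        (FreeGroup.of j * FreeGroup.of i * FreeGroup.of j)⁻¹}

/-- Artin's braid group on `m + 1` strings. -/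
abbrev Braid (m : ℕ) : Type := PresentedGroup (artinRels m)

/-- Artin's generator `σ_i`. -/
def σ {m : ℕ} (i : Fin m) : Braid m := PresentedGroup.of i

lemma σ_comm {m : ℕ} {i j : Fin m} (h : (i : ℕ) + 2 ≤ j) : σ i * σ j = σ j * σ i := by
  have h1 : PresentedGroup.mk (artinRels m) (FreeGroup.of i * FreeGroup.of j *
      (FreeGroup.of i)⁻¹ * (FreeGroup.of j)⁻¹) = 1 :=
    PresentedGroup.one_of_mem (Or.inl ⟨i, j, h, rfl⟩)
  simp only [map_mul, map_inv] at h1
  have h2 : σ i * σ j * (σ i)⁻¹ * (σ j)⁻¹ = 1 := h1
  rw [mul_inv_eq_one, mul_inv_eq_iff_eq_mul] at h2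
  exact h2

lemma σ_braid {m : ℕ} {i j : Fin m} (h : (i : ℕ) + 1 = j) :
    σ i * σ j * σ i = σ j * σ i * σ j := by
  have h1 : PresentedGroup.mk (artinRels m) (FreeGroup.of i * FreeGroup.of j * FreeGroup.of i *
      (FreeGroup.of j * FreeGroup.of i * FreeGroup.of j)⁻¹) = 1 :=
    PresentedGroup.one_of_mem (Or.inr ⟨i, j, h, rfl⟩)
  simp only [map_mul, map_inv] at h1
  have h2 : σ i * σ j * σ i * (σ j * σ i * σ j)⁻¹ = 1 := by
    simp only [mul_inv_rev] at h1 ⊢
    exact h1
  rwa [mul_inv_eq_one] at h2

lemma lift_artin {m : ℕ} {H : Type*} [Group H] (f : Fin m → H)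
    (h1 : ∀ i j : Fin m, (i : ℕ) + 2 ≤ j → f i * f j = f j * f i)
    (h2 : ∀ i j : Fin m, (i : ℕ) + 1 = j → f i * f j * f i = f j * f i * f j) :
    ∀ r ∈ artinRels m, FreeGroup.lift f r = 1 := by
  rintro r (⟨i, j, h, rfl⟩ | ⟨i, j, h, rfl⟩)
  · simp only [map_mul, map_inv, FreeGroup.lift_apply_of]
    rw [mul_inv_eq_one, mul_inv_eq_iff_eq_mul, h1 i j h]
  · simp only [map_mul, map_inv, FreeGroup.lift_apply_of]
    rw [mul_inv_eq_one, h2 i j h]

lemma perm_rels (m : ℕ) : ∀ r ∈ artinRels m,
    FreeGroup.lift (fun i : Fin m => swap i.castSucc i.succ) r = 1 := by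
  apply lift_artin
  · intro i j h
    apply Equiv.Perm.Disjoint.commute
    intro x
    by_cases hx : x = i.castSucc ∨ x = i.succ
    · right
      apply swap_apply_of_ne_of_ne
      · rintro rfl
        rcases hx with hx | hx <;>
          (simp only [Fin.ext_iff, Fin.val_castSucc, Fin.val_succ] at hx; omega)
      · rintro rfl
        rcases hx with hx | hx <;>
          (simp only [Fin.ext_iff, Fin.val_castSucc, Fin.val_succ] at hx; omega)
    · left
      push Not at hx
      exact swap_apply_of_ne_of_ne hx.1 hx.2
  · intro i j h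
    have hij : i.succ = j.castSucc := by
      ext; simpa using h
    rw [hij]
    have e1 : i.castSucc ≠ j.castSucc := by
      intro h'; simp only [Fin.ext_iff, Fin.val_castSucc] at h'; omega
    have e2 : i.castSucc ≠ j.succ := by
      intro h'; simp only [Fin.ext_iff, Fin.val_castSucc, Fin.val_succ] at h'; omega
    have e3 : j.castSucc ≠ j.succ := by
      intro h'; simp only [Fin.ext_iff, Fin.val_castSucc, Fin.val_succ] at h'; omega
    rw [swap_mul_swap_mul_swap e1 e2, swap_comm i.castSucc j.castSucc,
      swap_comm j.castSucc j.succ, swap_mul_swap_mul_swap e3.symm e2.symm, swap_comm]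

/-- The permutation of the end points of a braid; `σ_i` goes to the transposition of `i` and
`i + 1`. -/
def perm (m : ℕ) : Braid m →* Perm (Fin (m + 1)) := PresentedGroup.toGroup (perm_rels m)

lemma perm_σ {m : ℕ} (i : Fin m) : perm m (σ i) = swap i.castSucc i.succ :=
  PresentedGroup.toGroup.of _

lemma refl_rels (m : ℕ) : ∀ r ∈ artinRels m,
    FreeGroup.lift (fun i : Fin m => (σ i.rev : Braid m)⁻¹) r = 1 := by
  apply lift_artin
  · intro i j h
    rw [← mul_inv_rev, ← mul_inv_rev, σ_comm (i := j.rev) (j := i.rev)]
    simp only [Fin.val_rev]; omega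
  · intro i j h
    rw [← mul_inv_rev, ← mul_inv_rev, ← mul_inv_rev, ← mul_inv_rev, ← mul_assoc, ← mul_assoc,
      σ_braid (i := j.rev) (j := i.rev)]
    simp only [Fin.val_rev]; omega

/-- The automorphism `σ_i ↦ σ_{m-1-i}⁻¹` of the braid group, induced by the reflection of the
plane which reverses the order of the end points. -/
def refl (m : ℕ) : Braid m →* Braid m := PresentedGroup.toGroup (refl_rels m)

lemma refl_σ {m : ℕ} (i : Fin m) : refl m (σ i) = (σ i.rev)⁻¹ :=
  PresentedGroup.toGroup.of _

/-- The permutation of `β` preserves the colouring `col` of the end points. -/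
def PreservesCol {m k : ℕ} (col : Fin (m + 1) → Fin k) (β : Braid m) : Prop :=
  ∀ i, col (perm m β i) = col i

lemma preservesCol_one {m k : ℕ} (col : Fin (m + 1) → Fin k) : PreservesCol col 1 := by
  intro i; simp

lemma PreservesCol.mul {m k : ℕ} {col : Fin (m + 1) → Fin k} {a b : Braid m}
    (ha : PreservesCol col a) (hb : PreservesCol col b) : PreservesCol col (a * b) := by
  intro i
  rw [map_mul, Perm.mul_apply, ha, hb]

lemma PreservesCol.inv {m k : ℕ} {col : Fin (m + 1) → Fin k} {a : Braid m}
    (ha : PreservesCol col a) : PreservesCol col a⁻¹ := by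
  intro i
  have h := ha (perm m a⁻¹ i)
  rw [← Perm.mul_apply, ← map_mul, mul_inv_cancel, map_one, Perm.one_apply] at h
  exact h.symm

/-- The coloured braid group of the colouring `col` of the end points: the braids whose
permutation preserves the colours. -/
def colBraid {m k : ℕ} (col : Fin (m + 1) → Fin k) : Subgroup (Braid m) where
  carrier := {β | PreservesCol col β}
  one_mem' := preservesCol_one col
  mul_mem' := PreservesCol.mul
  inv_mem' := PreservesCol.inv

lemma mem_colBraid {m k : ℕ} {col : Fin (m + 1) → Fin k} {β : Braid m} :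
    β ∈ colBraid col ↔ ∀ i, col (perm m β i) = col i := Iff.rfl

lemma perm_apply_inv {m : ℕ} (t : Braid m) (x : Fin (m + 1)) :
    perm m t⁻¹ (perm m t x) = x := by
  rw [← Perm.mul_apply, ← map_mul, inv_mul_cancel, map_one, Perm.one_apply]

lemma perm_inv_apply {m : ℕ} (t : Braid m) (x : Fin (m + 1)) :
    perm m t (perm m t⁻¹ x) = x := by
  rw [← Perm.mul_apply, ← map_mul, mul_inv_cancel, map_one, Perm.one_apply]

/-- The end points of colour `c`. -/
abbrev Fib {m k : ℕ} (col : Fin (m + 1) → Fin k) (c : Fin k) : Type :=
  {i : Fin (m + 1) // col i = c}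

lemma fib_aux {m k : ℕ} {col : Fin (m + 1) → Fin k} (β : colBraid col) {c : Fin k}
    (i : Fib col c) : col (perm m β i) = c := (β.2 i).trans i.2

/-- The permutation of the end points of colour `c`. -/
def fibMap {m k : ℕ} {col : Fin (m + 1) → Fin k} (β : colBraid col) {c : Fin k}
    (i : Fib col c) : Fib col c := ⟨perm m β i, fib_aux β i⟩

lemma fibMap_inv {m k : ℕ} {col : Fin (m + 1) → Fin k} (β : colBraid col) {c : Fin k}
    (i : Fib col c) : fibMap β⁻¹ (fibMap β i) = i :=
  Subtype.ext (perm_apply_inv (β : Braid m) i)

lemma fibMap_inv' {m k : ℕ} {col : Fin (m + 1) → Fin k} (β : colBraid col) {c : Fin k}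
    (i : Fib col c) : fibMap β (fibMap β⁻¹ i) = i :=
  Subtype.ext (perm_inv_apply (β : Braid m) i)

lemma fibMap_one {m k : ℕ} {col : Fin (m + 1) → Fin k} {c : Fin k}
    (i : Fib col c) : fibMap (1 : colBraid col) i = i := by
  apply Subtype.ext
  simp [fibMap]

lemma fibMap_mul {m k : ℕ} {col : Fin (m + 1) → Fin k} (a b : colBraid col) {c : Fin k}
    (i : Fib col c) : fibMap (a * b) i = fibMap a (fibMap b i) := by
  apply Subtype.ext
  simp [fibMap]

/-- The coloured braid group of the colouring `col` as a type. -/
def ColBraid {m k : ℕ} (col : Fin (m + 1) → Fin k) : Type := colBraid col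

instance instGroupColBraid {m k : ℕ} (col : Fin (m + 1) → Fin k) : Group (ColBraid col) :=
  (colBraid col).toGroup

/-- A coloured braid as a braid. -/
def ColBraid.toBraid {m k : ℕ} {col : Fin (m + 1) → Fin k} (β : ColBraid col) : Braid m :=
  Subtype.val β

/-- The product of one copy of the group `G c` for each end point of colour `c`. -/
def Summands {m k : ℕ} (col : Fin (m + 1) → Fin k) (G : Fin k → Type) : Type :=
  ∀ c : Fin k, Fib col c → G c

instance instGroupSummands {m k : ℕ} (col : Fin (m + 1) → Fin k) (G : Fin k → Type)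
    [∀ c, Group (G c)] : Group (Summands col G) := Pi.group

/-- A coloured braid permutes the factors of `Summands col G`. -/
def permute {m k : ℕ} {col : Fin (m + 1) → Fin k} {G : Fin k → Type} (β : ColBraid col)
    (g : Summands col G) : Summands col G := fun c i => g c (fibMap (col := col) β⁻¹ i)

/-- `H` is the group of a connected sum with summands of the groups `G c`, coloured by `col`:
the semidirect product of the product of the groups of the summands (included by `inc`) and the
coloured braid group (included by `br`), which permutes the factors. -/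
structure IsSum {m k : ℕ} (col : Fin (m + 1) → Fin k) (G : Fin k → Type) [∀ c, Group (G c)]
    (H : Type) [Group H] (inc : Summands col G →* H) (br : ColBraid col →* H) : Prop where
  conj : ∀ β g, br β * inc g * (br β)⁻¹ = inc (permute β g)
  bij : Function.Bijective fun p : Summands col G × ColBraid col => inc p.1 * br p.2

/-- The end point of the string of `β` which starts at `i`. -/
def endOf {m : ℕ} (β : Braid m) (i : Fin (m + 1)) : Fin (m + 1) := perm m β i

/-- The reflection of the plane, followed by the conjugation by `b`. -/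
def reflConj {m : ℕ} (b β : Braid m) : Braid m := b⁻¹ * refl m β * b

/-- `φ` is an inversion of the group of a connected sum: on the colours there is an involution
`bar` (reversing the summands), `b` is a braid which carries the reversed colouring to the
colouring by the reversed summands, `φ` acts on the coloured braid group by the reflection of
the plane followed by the conjugation by `b`, it preserves the product of the groups of the
summands, and its square is inner. -/
structure IsSumInversion {m k : ℕ} (col : Fin (m + 1) → Fin k) (G : Fin k → Type)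
    [∀ c, Group (G c)] (H : Type) [Group H] (inc : Summands col G →* H)
    (br : ColBraid col →* H) (φ : MulAut H) (bar : Fin k → Fin k) (b : Braid m) : Prop where
  bar_bar : ∀ c, bar (bar c) = c
  colours : ∀ i, col (endOf b i).rev = bar (col i)
  braids : ∀ β, ∃ β', β'.toBraid = reflConj b β.toBraid ∧ φ (br β) = br β'
  summands : ∀ g, ∃ g', φ (inc g) = inc g'
  sq : ∃ a, ∀ x, φ (φ x) = a * x * a⁻¹

/-- The product of `ℓ c + 1` copies of each `G c`. -/
def Comps {k : ℕ} (ℓ : Fin k → ℕ) (G : Fin k → Type) : Type :=
  ∀ c : Fin k, Fin (ℓ c + 1) → G c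

instance instGroupComps {k : ℕ} (ℓ : Fin k → ℕ) (G : Fin k → Type) [∀ c, Group (G c)] :
    Group (Comps ℓ G) := Pi.group

/-- Cyclic shift of the copies of `G c`, with `τ c` applied at the return to the first copy. -/
def shift {k : ℕ} (ℓ : Fin k → ℕ) (G : Fin k → Type) [∀ c, Group (G c)]
    (τ : ∀ c, MulAut (G c)) (g : Comps ℓ G) : Comps ℓ G := fun c =>
  Fin.cons (α := fun _ => G c) (τ c (g c (Fin.last _))) (Fin.init (g c))

/-- `H` is the group of a hyperbolic splice: the product of the infinite cyclic group of `u`
(the full rotation about the long axis) and the semidirect product of the product of the groups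
of the companions (included by `inc`) and the infinite cyclic group of `t`, which acts by
`shift ℓ G τ`. -/
structure IsSplice {k : ℕ} (ℓ : Fin k → ℕ) (G : Fin k → Type) [∀ c, Group (G c)]
    (τ : ∀ c, MulAut (G c)) (H : Type) [Group H] (inc : Comps ℓ G →* H) (u t : H) : Prop where
  central : ∀ x, u * x = x * u
  conj : ∀ g, t * inc g * t⁻¹ = inc (shift ℓ G τ g)
  bij : Function.Bijective fun p : ℤ × Comps ℓ G × ℤ => u ^ p.1 * (inc p.2.1 * t ^ p.2.2)

/-- `φ` is an inversion of the group of a hyperbolic splice: it inverts the rotation `u`, it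
preserves the product of the groups of the companions, modulo this product it inverts `t`, and
its square is inner. -/
structure IsSpliceInversion {k : ℕ} (ℓ : Fin k → ℕ) (G : Fin k → Type) [∀ c, Group (G c)]
    (H : Type) [Group H] (inc : Comps ℓ G →* H) (u t : H) (φ : MulAut H) : Prop where
  rotation : φ u = u⁻¹
  companions : ∀ g, ∃ g', φ (inc g) = inc g'
  symmetry : ∃ g, φ t = inc g * t⁻¹
  sq : ∃ a, ∀ x, φ (φ x) = a * x * a⁻¹

/-- The return maps of a hyperbolic splice: if the companions of the cycle `c` come back
reversed, then `τ c` is the inversion of the companion, and otherwise it is inner. -/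
def IsReturn {k : ℕ} {G : Fin k → Type} [∀ c, Group (G c)] (o : ∀ c, Option (MulAut (G c)))
    (rev : Fin k → Bool) (τ : ∀ c, MulAut (G c)) : Prop :=
  ∀ c, if rev c then o c = some (τ c) else ∃ a, τ c = MulAut.conj a

/-- The reversing depth of a hyperbolic splice whose companions have depths `d`. -/
def spliceDepth {k : ℕ} (rev : Fin k → Bool) (d : Fin k → ℕ) : ℕ :=
  Finset.univ.sup fun c => if rev c then d c + 1 else d c

/-- Transport of an inversion by an isomorphism. -/
def transport {G H : Type} [Group G] [Group H] (e : G ≃* H) (φ : MulAut G) : MulAut H :=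
  (e.symm.trans φ).trans e

/-- The inversion `(-1) × φ` of the group of a cable. -/
def cableInv {G : Type} [Group G] (φ : MulAut G) : MulAut (Multiplicative ℤ × G) :=
  (MulEquiv.inv (Multiplicative ℤ)).prodCongr φ

/-- Budney's recursive description of the fundamental groups of the components of the space of
long knots, following the JSJ decomposition (companionship tree) of the knot complement.
`KnotGroup G o d`: the group `G` is obtained by the recursion; if `o = some φ`, the knot is
invertible and `φ` is the automorphism of `G` (defined up to inner automorphisms) induced by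
the inversion of long knots; `d` is the reversing depth of the tree, the largest number of
companions on a path from the root to a leaf which are reversed by a symmetry of the hyperbolic
piece to which they are attached. The rules:

* `unknot`, `torus`, `hyperbolic`: trivial group, `ℤ`, `ℤ × ℤ`, with inversion `-1`;
* `iso`, `inner`, `forget`: isomorphic groups, change of the inversion by an inner
  automorphism, knots whose inversion is not recorded (or which are not invertible);
* `cable`: a cable of a knot with group `G` has the group `ℤ × G`, with inversion `(-1) × φ`;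
* `sum`, `sumInv`: a connected sum of `m + 2` knots, whose types are given by the colouring
  `col`: the product of the groups of the summands, extended by the coloured braid group;
* `splice`, `spliceInv`: a hyperbolic splice. The cyclic group of symmetries of the root piece
  permutes the companions in cycles of lengths `ℓ c + 1`; the `ℓ c + 1` companions of the cycle
  `c` have the group `G c`. The group is `ℤ × ((∏ c, G c ^ (ℓ c + 1)) ⋊ ℤ)`, where the generator
  of the second `ℤ` shifts each cycle, with return map `τ c`. If the symmetry carries the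
  companions of the cycle `c` back to themselves reversed (`rev c`), then `τ c` is the
  inversion of the companion, and otherwise it is inner. Each reversed companion adds one to
  the depth. -/
inductive KnotGroup : (G : Type) → [Group G] → Option (MulAut G) → ℕ → Prop
  | unknot : KnotGroup Unit none 0
  | torus : KnotGroup (Multiplicative ℤ) (some (MulEquiv.inv _)) 0
  | hyperbolic : KnotGroup (Multiplicative ℤ × Multiplicative ℤ) (some (MulEquiv.inv _)) 0
  | iso {G H : Type} [Group G] [Group H] {o : Option (MulAut G)} {d : ℕ} (e : G ≃* H)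
      (h : KnotGroup G o d) : KnotGroup H (o.map (transport e)) d
  | inner {G : Type} [Group G] {φ : MulAut G} {d : ℕ} (a : G) (h : KnotGroup G (some φ) d) :
      KnotGroup G (some (MulAut.conj a * φ)) d
  | forget {G : Type} [Group G] {φ : MulAut G} {d : ℕ} (h : KnotGroup G (some φ) d) :
      KnotGroup G none d
  | cable {G : Type} [Group G] {o : Option (MulAut G)} {d : ℕ} (h : KnotGroup G o d) :
      KnotGroup (Multiplicative ℤ × G) (o.map cableInv) d
  | sum {m k : ℕ} (col : Fin (m + 2) → Fin k) (hcol : Function.Surjective col)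
      (G : Fin k → Type) [∀ c, Group (G c)] (o : ∀ c, Option (MulAut (G c))) (d : Fin k → ℕ)
      (h : ∀ c, KnotGroup (G c) (o c) (d c)) (H : Type) [Group H]
      (inc : Summands col G →* H) (br : ColBraid col →* H) (hH : IsSum col G H inc br) :
      KnotGroup H none (Finset.univ.sup d)
  | sumInv {m k : ℕ} (col : Fin (m + 2) → Fin k) (hcol : Function.Surjective col)
      (G : Fin k → Type) [∀ c, Group (G c)] (o : ∀ c, Option (MulAut (G c))) (d : Fin k → ℕ)
      (h : ∀ c, KnotGroup (G c) (o c) (d c)) (H : Type) [Group H]
      (inc : Summands col G →* H) (br : ColBraid col →* H) (hH : IsSum col G H inc br)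
      (φ : MulAut H) (bar : Fin k → Fin k) (b : Braid (m + 1))
      (hφ : IsSumInversion col G H inc br φ bar b) :
      KnotGroup H (some φ) (Finset.univ.sup d)
  | splice {k : ℕ} (ℓ : Fin k → ℕ) (G : Fin k → Type) [∀ c, Group (G c)]
      (o : ∀ c, Option (MulAut (G c))) (d : Fin k → ℕ) (h : ∀ c, KnotGroup (G c) (o c) (d c))
      (rev : Fin k → Bool) (τ : ∀ c, MulAut (G c)) (hτ : IsReturn o rev τ) (H : Type)
      [Group H] (inc : Comps ℓ G →* H) (u t : H) (hH : IsSplice ℓ G τ H inc u t) :
      KnotGroup H none (spliceDepth rev d)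
  | spliceInv {k : ℕ} (ℓ : Fin k → ℕ) (G : Fin k → Type) [∀ c, Group (G c)]
      (o : ∀ c, Option (MulAut (G c))) (d : Fin k → ℕ) (h : ∀ c, KnotGroup (G c) (o c) (d c))
      (rev : Fin k → Bool) (τ : ∀ c, MulAut (G c)) (hτ : IsReturn o rev τ) (H : Type)
      [Group H] (inc : Comps ℓ G →* H) (u t : H) (hH : IsSplice ℓ G τ H inc u t)
      (φ : MulAut H) (hφ : IsSpliceInversion ℓ G H inc u t φ) :
      KnotGroup H (some φ) (spliceDepth rev d)

end Pool.Agent.Lib.MP_9ed307_gt
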