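import Pool.Agent.Lib.MP_9ed307_gt.Defs

namespace Pool.Agent.Lib.MP_9ed307_gt

open Equiv SemidirectProduct

/-- The product of one copy of the group `G c` for each end point of colour `c`. -/
abbrev SummandsA {m k : ℕ} (col : Fin (m + 1) → Fin k) (G : Fin k → Type) : Type :=
  ∀ c : Fin k, Fib col c → G c

/-- The action of a coloured braid on `SummandsA col G`, permuting the factors. -/
def act {m k : ℕ} (col : Fin (m + 1) → Fin k) (G : Fin k → Type) [∀ c, Group (G c)]
    (β : colBraid col) : MulAut (SummandsA col G) where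
  toFun g c i := g c (fibMap β⁻¹ i)
  invFun g c i := g c (fibMap β i)
  left_inv g := funext fun c => funext fun i => congrArg (g c) (fibMap_inv β i)
  right_inv g := funext fun c => funext fun i => congrArg (g c) (fibMap_inv' β i)
  map_mul' _ _ := rfl

lemma act_one {m k : ℕ} (col : Fin (m + 1) → Fin k) (G : Fin k → Type) [∀ c, Group (G c)] :
    act col G 1 = 1 := by
  ext g c i
  change g c (fibMap (1 : colBraid col)⁻¹ i) = g c i
  rw [inv_one, fibMap_one]

lemma act_mul {m k : ℕ} (col : Fin (m + 1) → Fin k) (G : Fin k → Type) [∀ c, Group (G c)]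
    (a b : colBraid col) : act col G (a * b) = act col G a * act col G b := by
  ext g c i
  change g c (fibMap (a * b)⁻¹ i) = g c (fibMap b⁻¹ (fibMap a⁻¹ i))
  rw [mul_inv_rev, fibMap_mul]

/-- The coloured braid group permutes the factors of `SummandsA col G`. -/
def colAct {m k : ℕ} (col : Fin (m + 1) → Fin k) (G : Fin k → Type) [∀ c, Group (G c)] :
    colBraid col →* MulAut (SummandsA col G) where
  toFun := act col G
  map_one' := act_one col G
  map_mul' := act_mul col G

/-- The product of `ℓ c + 1` copies of each `G c`. -/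
abbrev CompsA {k : ℕ} (ℓ : Fin k → ℕ) (G : Fin k → Type) : Type :=
  ∀ c : Fin k, Fin (ℓ c + 1) → G c

/-- Cyclic shift of the copies of `G c`, with `τ c` applied at the return to the first copy. -/
def shiftA {k : ℕ} (ℓ : Fin k → ℕ) (G : Fin k → Type) [∀ c, Group (G c)]
    (τ : ∀ c, MulAut (G c)) (g : CompsA ℓ G) : CompsA ℓ G := fun c =>
  Fin.cons (α := fun _ => G c) (τ c (g c (Fin.last _))) (Fin.init (g c))

/-- The inverse of `shiftA`. -/
def unshift {k : ℕ} (ℓ : Fin k → ℕ) (G : Fin k → Type) [∀ c, Group (G c)]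
    (τ : ∀ c, MulAut (G c)) (g : CompsA ℓ G) : CompsA ℓ G := fun c =>
  Fin.snoc (α := fun _ => G c) (Fin.tail (g c)) ((τ c).symm (g c 0))

lemma unshift_shift {k : ℕ} (ℓ : Fin k → ℕ) (G : Fin k → Type) [∀ c, Group (G c)]
    (τ : ∀ c, MulAut (G c)) (g : CompsA ℓ G) : unshift ℓ G τ (shiftA ℓ G τ g) = g := by
  funext c
  simp [unshift, shiftA]

lemma shift_unshift {k : ℕ} (ℓ : Fin k → ℕ) (G : Fin k → Type) [∀ c, Group (G c)]
    (τ : ∀ c, MulAut (G c)) (g : CompsA ℓ G) : shiftA ℓ G τ (unshift ℓ G τ g) = g := by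
  funext c
  simp [unshift, shiftA]

lemma shift_mul {k : ℕ} (ℓ : Fin k → ℕ) (G : Fin k → Type) [∀ c, Group (G c)]
    (τ : ∀ c, MulAut (G c)) (g h : CompsA ℓ G) :
    shiftA ℓ G τ (g * h) = shiftA ℓ G τ g * shiftA ℓ G τ h := by
  funext c j
  refine Fin.cases ?_ (fun j => ?_) j
  · simp [shiftA]
  · simp [shiftA, Fin.init]

/-- The automorphism of `CompsA ℓ G` which shifts the copies of `G c` cyclically, with the
automorphism `τ c` applied at the return to the first copy. -/
def rot {k : ℕ} (ℓ : Fin k → ℕ) (G : Fin k → Type) [∀ c, Group (G c)]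
    (τ : ∀ c, MulAut (G c)) : MulAut (CompsA ℓ G) where
  toFun := shiftA ℓ G τ
  invFun := unshift ℓ G τ
  left_inv := unshift_shift ℓ G τ
  right_inv := shift_unshift ℓ G τ
  map_mul' := shift_mul ℓ G τ

end Pool.Agent.Lib.MP_9ed307_gt
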