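import Pool.Agent.Lib.MP_9ed307_gt.Basic
import Pool.Agent.Lib.MP_9ed307_gt.Ext
import Pool.Agent.Lib.MP_9ed307_gt.ColAb

namespace Pool.Agent.Lib.MP_9ed307_gt

open Equiv SemidirectProduct

/-- The group of a connected sum with summands of the groups `G c`, coloured by `col`. -/
abbrev SumGroupA {m k : ℕ} (col : Fin (m + 1) → Fin k) (G : Fin k → Type)
    [∀ c, Group (G c)] : Type :=
  SummandsA col G ⋊[colAct col G] colBraid col

section
variable {m k : ℕ} {col : Fin (m + 2) → Fin k} {G : Fin k → Type} [∀ c, Group (G c)]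
  {A : Type} [CommGroup A]

/-- the permutation of the strings of one colour -/
def fibPerm (β : colBraid col) (c : Fin k) : Perm (Fib col c) where
  toFun i := fibMap β i
  invFun i := fibMap β⁻¹ i
  left_inv i := fibMap_inv β i
  right_inv i := fibMap_inv' β i

lemma colAct_apply' (β : colBraid col) (g : SummandsA col G) (c : Fin k)
    (i : Fib col c) :
    colAct col G β g c i = g c ((fibPerm β c).symm i) := rfl

/-- product over the strings of colour `c` -/
def totP (c : Fin k) (f : G c →* A) : SummandsA col G →* A where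
  toFun g := ∏ i, f (g c i)
  map_one' := by simp
  map_mul' := by intro g h; simp [Finset.prod_mul_distrib]

lemma totP_act (c : Fin k) (f : G c →* A) (β : colBraid col) (g : SummandsA col G) :
    totP c f (colAct col G β g) = totP c f g := by
  change ∏ i, f (colAct col G β g c i) = ∏ i, f (g c i)
  simp only [colAct_apply']
  exact Equiv.prod_comp (fibPerm β c).symm (fun i => f (g c i))

/-- the induced homomorphism of the sum group -/
def totS (c : Fin k) (f : G c →* A) : SumGroupA col G →* A :=
  SemidirectProduct.lift (totP c f) 1 (by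
    intro n
    ext g
    simp only [MonoidHom.coe_comp, Function.comp_apply, MulEquiv.coe_toMonoidHom,
      MonoidHom.one_apply, map_one, MulAut.one_apply]
    exact totP_act c f n g)

lemma totS_apply (c : Fin k) (f : G c →* A) (x : SumGroupA col G) :
    totS c f x = ∏ i, f (x.left c i) := by
  change totP c f x.left * (1 : colBraid col →* A) x.right = _
  rw [MonoidHom.one_apply, mul_one]; rfl

/-- inclusion of one summand -/
def embP (c : Fin k) (i : Fib col c) : G c →* SummandsA col G :=
  (MonoidHom.mulSingle (fun c => Fib col c → G c) c).comp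
    (MonoidHom.mulSingle (fun _ => G c) i)

lemma embP_same (c : Fin k) (i : Fib col c) (x : G c) :
    embP (G := G) c i x c = Pi.mulSingle i x := by
  simp [embP]

lemma embP_ne {c c' : Fin k} (h : c' ≠ c) (i : Fib col c) (x : G c) :
    embP (G := G) c i x c' = 1 := by
  simp [embP, Pi.mulSingle_eq_of_ne h]

lemma act_embP (β : colBraid col) (c : Fin k) (i : Fib col c) (x : G c) :
    colAct col G β (embP c i x) = embP c (fibPerm β c i) x := by
  funext c' j
  rw [colAct_apply']
  by_cases h : c' = c
  · subst h
    rw [embP_same, embP_same]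
    by_cases hj : j = fibPerm β c' i
    · rw [hj, Equiv.symm_apply_apply, Pi.mulSingle_eq_same, Pi.mulSingle_eq_same]
    · rw [Pi.mulSingle_eq_of_ne hj, Pi.mulSingle_eq_of_ne]
      intro h
      apply hj
      rw [← h, Equiv.apply_symm_apply]
  · rw [embP_ne h, embP_ne h, Pi.one_apply, Pi.one_apply]

lemma homP_decomp (F : SummandsA col G →* A) (g : SummandsA col G) :
    F g = ∏ c, ∏ j, F (embP c j (g c j)) := by
  classical
  let F' : SummandsA col G →* A :=
    { toFun := fun g => ∏ c, ∏ j, F (embP c j (g c j))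
      map_one' := by simp
      map_mul' := by intro g h; simp [Finset.prod_mul_distrib] }
  have h : F = F' := by
    apply MonoidHom.pi_ext
    intro c x
    have h2 : F.comp (MonoidHom.mulSingle
          (fun c => Fib col c → G c) c) =
        F'.comp (MonoidHom.mulSingle (fun c => Fib col c → G c) c) := by
      apply MonoidHom.pi_ext
      intro j y
      change F (embP c j y) = ∏ c', ∏ j', F (embP c' j' (embP (G := G) c j y c' j'))
      rw [Finset.prod_eq_single c, Finset.prod_eq_single j]
      · rw [embP_same, Pi.mulSingle_eq_same]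
      · intro j' _ hj
        rw [embP_same, Pi.mulSingle_eq_of_ne hj, map_one, map_one]
      · intro h; exact absurd (Finset.mem_univ _) h
      · intro c' _ hc
        apply Finset.prod_eq_one
        intro j' _
        rw [embP_ne hc, Pi.one_apply, map_one, map_one]
      · intro h; exact absurd (Finset.mem_univ _) h
    exact DFunLike.congr_fun h2 x
  exact DFunLike.congr_fun h g

variable (col G) in
/-- the homomorphism from the summands to the abelianization -/
def JS : SummandsA col G →* Abelianization (SumGroupA col G) :=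
  Abelianization.of.comp inl

lemma JS_act (β : colBraid col) (g : SummandsA col G) :
    JS col G (colAct col G β g) = JS col G g := by
  change Abelianization.of (inl (colAct col G β g)) = Abelianization.of (inl g)
  rw [inl_aut]
  simp only [map_mul, map_inv]
  rw [mul_comm, inv_mul_cancel_left]

lemma JS_emb (c : Fin k) (i j : Fib col c) (x : G c) :
    JS col G (embP c i x) = JS col G (embP c j x) := by
  obtain ⟨β, hβ⟩ := perm_surjective (m + 1) (swap (i : Fin (m + 2)) j)
  have hmem : β ∈ colBraid col := by
    rw [mem_colBraid]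
    intro x
    rw [hβ]
    exact swap_col col (by rw [i.2, j.2]) x
  have h1 := act_embP (G := G) ⟨β, hmem⟩ c i x
  have h2 : fibPerm (⟨β, hmem⟩ : colBraid col) c i = j := by
    apply Subtype.ext
    change perm (m + 1) β i = j
    rw [hβ, swap_apply_left]
  rw [h2] at h1
  rw [← h1, JS_act]

lemma eq_JS {x : SumGroupA col G} (hx : IsOfFinOrder (Abelianization.of x)) :
    Abelianization.of x = JS col G x.left := by
  have h1 : ∀ c d, NN col c d x.right = 0 := by
    intro c d
    have h := (Abelianization.lift ((NNhom col c d).comp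
      (rightHom (φ := colAct col G)))).isOfFinOrder hx
    rw [Abelianization.lift_apply_of] at h
    exact congrArg Multiplicative.toAdd (multInt_torsionfree h)
  have h2 := congrArg (Abelianization.map (inr (φ := colAct col G))) (colBraid_ab _ h1)
  rw [Abelianization.map_of, map_one] at h2
  conv_lhs => rw [← inl_left_mul_inr_right x]
  rw [map_mul, h2, mul_one]
  rfl

lemma Good.sum_exp (hcol : Function.Surjective col) (o : ∀ c, Option (MulAut (G c)))
    (d : Fin k → ℕ) (h : ∀ c, Good (G c) (o c) (d c)) (x : SumGroupA col G)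
    (hx : IsOfFinOrder (Abelianization.of x)) :
    Abelianization.of x ^ 2 ^ Finset.univ.sup d = 1 := by
  choose r hr using hcol
  let Jc : ∀ c, G c →* Abelianization (SumGroupA col G) := fun c =>
    (JS col G).comp (embP c ⟨r c, hr c⟩)
  have hJ : ∀ g, JS col G g = ∏ c, ∏ j, Jc c (g c j) := by
    intro g
    rw [homP_decomp (JS col G) g]
    exact Finset.prod_congr rfl fun c _ => Finset.prod_congr rfl fun j _ => JS_emb c _ _ _
  rw [eq_JS hx, hJ, ← Finset.prod_pow]
  apply Finset.prod_eq_one
  intro c _
  obtain ⟨e, he⟩ := Nat.exists_eq_add_of_le (Finset.le_sup (f := d) (Finset.mem_univ c))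
  have h1 := exp_down (totS (col := col) c Abelianization.of) (h c).exp hx
  rw [totS_apply] at h1
  have h3 := congrArg (Abelianization.lift (Jc c)) h1
  rw [map_pow, map_prod, map_one] at h3
  simp only [Abelianization.lift_apply_of] at h3
  rw [he, pow_add, pow_mul, h3, one_pow]

lemma Good.sum_tors (hcol : Function.Surjective col) (o : ∀ c, Option (MulAut (G c)))
    (d : Fin k → ℕ) (h : ∀ c, Good (G c) (o c) (d c)) (hd : 0 < Finset.univ.sup d) :
    ∃ x : SumGroupA col G, Abelianization.of x ≠ 1 ∧ IsOfFinOrder (Abelianization.of x) := by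
  rw [Finset.lt_sup_iff] at hd
  obtain ⟨c, -, hd⟩ := hd
  obtain ⟨i, hi⟩ := hcol c
  refine tors_up ((inl (φ := colAct col G)).comp (embP c ⟨i, hi⟩))
    (totS c Abelianization.of) ?_ ((h c).tors hd)
  intro x
  rw [totS_apply]
  change ∏ j, Abelianization.of (embP (G := G) c ⟨i, hi⟩ x c j) = _
  rw [Finset.prod_eq_single ⟨i, hi⟩]
  · rw [embP_same, Pi.mulSingle_eq_same]
  · intro j _ hj
    rw [embP_same, Pi.mulSingle_eq_of_ne hj, map_one]
  · intro h; exact absurd (Finset.mem_univ _) h

lemma Good.sum (hcol : Function.Surjective col) (o : ∀ c, Option (MulAut (G c)))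
    (d : Fin k → ℕ) (h : ∀ c, Good (G c) (o c) (d c)) :
    Good (SumGroupA col G) none (Finset.univ.sup d) where
  exp x hx := Good.sum_exp hcol o d h x hx
  tors hd := Good.sum_tors hcol o d h hd
  sq φ hφ := by cases hφ
  inv φ hφ := by cases hφ

lemma NN_symm {c d : Fin k} (hcd : c ≠ d) (β : Braid (m + 1)) (hβ : β ∈ colBraid col) :
    NN col c d β = NN col d c β := by
  have h1 : NN col d c β = ∑ x : Fin (m + 2) × Fin (m + 2),
      if col x.1 = c ∧ col x.2 = d then K β x.2 x.1 else 0 := by
    unfold NN
    rw [← Equiv.sum_comp (Equiv.prodComm (Fin (m + 2)) (Fin (m + 2)))]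
    refine Finset.sum_congr rfl fun x _ => ?_
    exact if_congr (show (col x.2 = d ∧ col x.1 = c) ↔ _ from and_comm) rfl rfl
  have h2 := NN_reindex (col := col) c d (perm (m + 1) β) hβ
    (fun p q => if p < q then (1 : ℤ) else 0)
  have h5 : (∑ x : Fin (m + 2) × Fin (m + 2),
        if col x.1 = c ∧ col x.2 = d then K β x.1 x.2 else 0) -
      (∑ x : Fin (m + 2) × Fin (m + 2),
        if col x.1 = c ∧ col x.2 = d then K β x.2 x.1 else 0) =
      (∑ x : Fin (m + 2) × Fin (m + 2),
        if col x.1 = c ∧ col x.2 = d then (if x.1 < x.2 then (1 : ℤ) else 0) else 0) -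
      (∑ x : Fin (m + 2) × Fin (m + 2), if col x.1 = c ∧ col x.2 = d then
        (if perm (m + 1) β x.1 < perm (m + 1) β x.2 then (1 : ℤ) else 0) else 0) := by
    rw [← Finset.sum_sub_distrib, ← Finset.sum_sub_distrib]
    refine Finset.sum_congr rfl fun x _ => ?_
    by_cases h3 : col x.1 = c ∧ col x.2 = d
    · rw [if_pos h3, if_pos h3, if_pos h3, if_pos h3]
      exact K_symm β x.1 x.2 (fun h => hcd (by rw [← h3.1, ← h3.2, h]))
    · rw [if_neg h3, if_neg h3, if_neg h3, if_neg h3]
  rw [h1]
  unfold NN
  linarith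

lemma NN_inversion {bar : Fin k → Fin k} (hbar : ∀ c, bar (bar c) = c) {b : Braid (m + 1)}
    (hb : ∀ i, col (perm (m + 1) b i).rev = bar (col i)) (β : Braid (m + 1))
    (hβ' : b⁻¹ * refl (m + 1) β * b ∈ colBraid col) (c d : Fin k) :
    NN col c d (b⁻¹ * refl (m + 1) β * b) = -NN col (bar c) (bar d) β := by
  have hinj : ∀ a e, bar a = bar e → a = e := by
    intro a e h
    rw [← hbar a, h, hbar]
  let π : Perm (Fin (m + 2)) := (perm (m + 1) b).trans Fin.revPerm
  have hπ : ∀ y, col (π y) = bar (col y) := hb
  have h := Equiv.sum_comp (Equiv.prodCongr π π) (fun z : Fin (m + 2) × Fin (m + 2) =>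
    if col z.1 = bar c ∧ col z.2 = bar d then K β z.1 z.2 else 0)
  rw [NN_conj c d b _ hβ']
  unfold NN
  rw [← h, ← Finset.sum_neg_distrib]
  refine Finset.sum_congr rfl fun x _ => ?_
  change (if col x.1 = c ∧ col x.2 = d then K (refl (m + 1) β) (perm (m + 1) b x.1)
    (perm (m + 1) b x.2) else 0) = -(if col (π x.1) = bar c ∧ col (π x.2) = bar d then
      K β (π x.1) (π x.2) else 0)
  rw [hπ, hπ, K_refl]
  by_cases h3 : col x.1 = c ∧ col x.2 = d
  · rw [if_pos h3, if_pos ⟨by rw [h3.1], by rw [h3.2]⟩]; rfl
  · rw [if_neg h3, if_neg, neg_zero]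
    rintro ⟨a, a'⟩
    exact h3 ⟨hinj _ _ a, hinj _ _ a'⟩

lemma exists_conj {p q : Fin (m + 2)} (hpq : p ≠ q) :
    ∃ t : Braid (m + 1), perm (m + 1) t⁻¹ 0 = p ∧ perm (m + 1) t⁻¹ 1 = q := by
  have h01 : (0 : Fin (m + 2)) ≠ 1 := by simp
  obtain ⟨κ, -, hκ0, hκ1⟩ := exists_two (fun _ : Fin (m + 2) => (0 : Fin 1)) h01 hpq
    rfl rfl
  obtain ⟨s, hs⟩ := perm_surjective (m + 1) κ
  exact ⟨s⁻¹, by rw [inv_inv, hs, hκ0], by rw [inv_inv, hs, hκ1]⟩

lemma Good.sumInv (hcol : Function.Surjective col) (o : ∀ c, Option (MulAut (G c)))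
    (d : Fin k → ℕ) (h : ∀ c, Good (G c) (o c) (d c)) (bar : Fin k → Fin k)
    (b : Braid (m + 1)) (Φ : MulAut (SumGroupA col G)) (bar_bar : ∀ c, bar (bar c) = c)
    (colours : ∀ i, col (perm (m + 1) b i).rev = bar (col i))
    (braid_left : ∀ β : colBraid col, (Φ (inr β)).left = 1)
    (braid_right : ∀ β : colBraid col,
      ((Φ (inr β)).right : Braid (m + 1)) = b⁻¹ * refl (m + 1) β * b)
    (summands : ∀ g : SummandsA col G, (Φ (inl g)).right = 1)
    (sq : ∃ a, ∀ x, Φ (Φ x) = a * x * a⁻¹) :
    Good (SumGroupA col G) (some Φ) (Finset.univ.sup d) where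
  exp x hx := Good.sum_exp hcol o d h x hx
  tors hd := Good.sum_tors hcol o d h hd
  sq φ hφ := by
    obtain rfl := Option.some.inj hφ
    exact sq
  inv φ hφ := by
    obtain rfl := Option.some.inj hφ
    -- general step
    have step : ∀ (e : colBraid col) (c c' : Fin k),
        (∀ a a', NN col (bar a) (bar a') e = NN col a a' e) → NN col c c' e = 1 →
        (∀ β : colBraid col, NN col (bar c) (bar c') β = NN col c c' β) →
        ∃ f : SumGroupA col G →* Multiplicative (ZMod 2), ∃ t : SumGroupA col G,
          (∀ x, f (Φ x) = f x) ∧ f t ≠ 1 ∧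
            Abelianization.of (Φ t) = (Abelianization.of t)⁻¹ := by
      intro e c c' h1 h2 h3
      have hN : ∀ (β : colBraid col) a a', NN col a a' (Φ (inr β)).right =
          -NN col (bar a) (bar a') β := by
        intro β a a'
        have hmem : b⁻¹ * refl (m + 1) β * b ∈ colBraid col := by
          rw [← braid_right]; exact (Φ (inr β)).right.2
        rw [braid_right]
        exact NN_inversion bar_bar colours _ hmem a a'
      refine ⟨mod2.comp ((NNhom col c c').comp (rightHom (φ := colAct col G))), inr e,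
        fun x => ?_, ?_, ?_⟩
      · have e1 : (Φ x).right = (Φ (inr x.right)).right := by
          conv_lhs => rw [← inl_left_mul_inr_right x]
          rw [map_mul, mul_right, summands, one_mul]
        change mod2 (Multiplicative.ofAdd (NN col c c' (Φ x).right)) =
          mod2 (Multiplicative.ofAdd (NN col c c' x.right))
        rw [e1, hN, h3, ofAdd_neg, mod2_inv]
      · change mod2 (Multiplicative.ofAdd (NN col c c' e)) ≠ 1
        rw [h2]
        exact mod2_one
      · have e1 : Φ (inr e) = inr (Φ (inr e)).right := by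
          apply SemidirectProduct.ext
          · rw [braid_left, left_inr]
          · rw [right_inr]
        have e2 : Abelianization.of ((Φ (inr e)).right * e) = 1 := by
          apply colBraid_ab
          intro a a'
          change NN col a a' (((Φ (inr e)).right : Braid (m + 1)) * e) = 0
          rw [NN_mul _ _ _ _ e.2, hN, h1]
          ring
        have e3 := congrArg (Abelianization.map (inr (φ := colAct col G))) e2
        rw [Abelianization.map_of, map_one, map_mul, map_mul, ← e1] at e3
        exact eq_inv_of_mul_eq_one_left e3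
    have hinj : ∀ a e, bar a = e ↔ a = bar e := by
      intro a e
      constructor
      · rintro rfl; rw [bar_bar]
      · rintro rfl; rw [bar_bar]
    by_cases hb : ∃ c, bar c ≠ c
    · obtain ⟨c, hc⟩ := hb
      obtain ⟨p, hp⟩ := hcol c
      obtain ⟨q, hq⟩ := hcol (bar c)
      have hpq : p ≠ q := by rintro rfl; exact hc (by rw [← hq, hp])
      obtain ⟨t, ht0, ht1⟩ := exists_conj hpq
      have hcp : cp col t = c := by unfold cp; rw [ht0, hp]
      have hcq : cq col t = bar c := by unfold cq; rw [ht1, hq]
      refine step ⟨_, e2_mem t⟩ c (bar c) ?_ ?_ ?_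
      · intro a a'
        change NN col (bar a) (bar a') (t⁻¹ * (σ 0 * σ 0) * t) =
          NN col a a' (t⁻¹ * (σ 0 * σ 0) * t)
        rw [NN_e2, NN_e2, hcp, hcq, add_comm]
        congr 1
        · simp only [← hinj, bar_bar]
        · simp only [← hinj, bar_bar]
      · change NN col c (bar c) (t⁻¹ * (σ 0 * σ 0) * t) = 1
        rw [NN_e2, hcp, hcq, if_pos ⟨rfl, rfl⟩, if_neg (fun h => hc h.1), add_zero]
      · intro β
        rw [bar_bar]
        exact NN_symm (col := col) hc (β : Braid (m + 1)) β.2
    · push Not at hb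
      have h01 : (0 : Fin (m + 2)) ≠ 1 := by simp
      obtain ⟨t, ht0, ht1⟩ := exists_conj h01
      by_cases hc : col 0 = col 1
      · have hcp : cp col t = col 0 := by unfold cp; rw [ht0]
        have hcq : cq col t = col 0 := by unfold cq; rw [ht1, hc]
        have hcc : cp col t = cq col t := by rw [hcp, hcq]
        refine step ⟨_, (e1_mem_iff t).2 hcc⟩ (col 0) (col 0) ?_ ?_ ?_
        · intro a a'; rw [hb, hb]
        · change NN col (col 0) (col 0) (t⁻¹ * σ 0 * t) = 1
          rw [NN_e1 _ _ _ hcc, hcp, hcq, if_pos ⟨rfl, rfl⟩]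
        · intro β; rw [hb]
      · have hcp : cp col t = col 0 := by unfold cp; rw [ht0]
        have hcq : cq col t = col 1 := by unfold cq; rw [ht1]
        refine step ⟨_, e2_mem t⟩ (col 0) (col 1) ?_ ?_ ?_
        · intro a a'; rw [hb, hb]
        · change NN col (col 0) (col 1) (t⁻¹ * (σ 0 * σ 0) * t) = 1
          rw [NN_e2, hcp, hcq, if_pos ⟨rfl, rfl⟩, if_neg (fun h => hc h.2), add_zero]
        · intro β; rw [hb, hb]

end

end Pool.Agent.Lib.MP_9ed307_gt
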