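import Pool.Agent.Lib.MP_9ed307_gt.Splice
import Pool.Agent.Lib.MP_9ed307_gt.Sum

namespace Pool.Agent.Lib.MP_9ed307_gt

open SemidirectProduct

section Sum
variable {m k : ℕ} {col : Fin (m + 1) → Fin k} {G : Fin k → Type} [∀ c, Group (G c)]
  {H : Type} [Group H] {inc : Summands col G →* H} {br : ColBraid col →* H}

/-- the homomorphism from the semidirect product -/
def sumHom (h : IsSum col G H inc br) : SumGroupA col G →* H :=
  SemidirectProduct.lift (φ := colAct col G) (show SummandsA col G →* H from inc)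
    (show colBraid col →* H from br) (by
      intro β
      ext g
      exact (h.conj β g).symm)

lemma sumHom_apply (h : IsSum col G H inc br) (x : SumGroupA col G) :
    sumHom h x = inc x.left * br x.right := rfl

lemma sumHom_bij (h : IsSum col G H inc br) : Function.Bijective (sumHom h) := by
  have h1 : (sumHom h : SumGroupA col G → H) =
      (fun p : Summands col G × ColBraid col => inc p.1 * br p.2) ∘
        (SemidirectProduct.equivProd (φ := colAct col G)) := by
    funext x; rfl
  rw [h1]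
  exact h.bij.comp (Equiv.bijective _)

/-- the isomorphism -/
noncomputable def sumEquiv (h : IsSum col G H inc br) : SumGroupA col G ≃* H :=
  MulEquiv.ofBijective (sumHom h) (sumHom_bij h)

end Sum

section Splice
variable {k : ℕ} {ℓ : Fin k → ℕ} {G : Fin k → Type} [∀ c, Group (G c)]
  {τ : ∀ c, MulAut (G c)} {H : Type} [Group H] {inc : Comps ℓ G →* H} {u t : H}

lemma conj_pow (h : IsSplice ℓ G τ H inc u t) (n : ℤ) (g : CompsA ℓ G) :
    t ^ n * inc g * (t ^ n)⁻¹ = inc ((rot ℓ G τ ^ n) g) := by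
  have h1 : ∀ g : CompsA ℓ G, t * inc g * t⁻¹ = inc (rot ℓ G τ g) := fun g => h.conj g
  have h2 : ∀ g : CompsA ℓ G, t⁻¹ * inc g * t = inc ((rot ℓ G τ)⁻¹ g) := by
    intro g
    have h3 := h1 ((rot ℓ G τ)⁻¹ g)
    rw [MulAut.apply_inv_self] at h3
    rw [← h3]
    group
  revert g
  induction n using Int.induction_on with
  | zero => intro g; simp
  | succ n ih =>
    intro g
    have e : t ^ ((n : ℤ) + 1) * inc g * (t ^ ((n : ℤ) + 1))⁻¹ =
        t ^ (n : ℤ) * (t * inc g * t⁻¹) * (t ^ (n : ℤ))⁻¹ := by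
      rw [zpow_add, zpow_one]; group
    rw [e, h1, ih, zpow_add, zpow_one, MulAut.mul_apply]
  | pred n ih =>
    intro g
    have e : t ^ (-(n : ℤ) - 1) * inc g * (t ^ (-(n : ℤ) - 1))⁻¹ =
        t ^ (-(n : ℤ)) * (t⁻¹ * inc g * t) * (t ^ (-(n : ℤ)))⁻¹ := by
      rw [zpow_sub, zpow_one]; group
    rw [e, h2, ih, zpow_sub, zpow_one, MulAut.mul_apply]

/-- the homomorphism from the second factor -/
def torusHom (h : IsSplice ℓ G τ H inc u t) : TorusA ℓ G τ →* H :=
  SemidirectProduct.lift (φ := zpowersHom (MulAut (CompsA ℓ G)) (rot ℓ G τ))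
    (show CompsA ℓ G →* H from inc) (zpowersHom H t) (by
      intro n
      ext g
      exact (conj_pow h (Multiplicative.toAdd n) g).symm)

lemma torusHom_apply (h : IsSplice ℓ G τ H inc u t) (x : TorusA ℓ G τ) :
    torusHom h x = inc x.left * t ^ (Multiplicative.toAdd x.right) := rfl

lemma u_central (h : IsSplice ℓ G τ H inc u t) (n : ℤ) (x : H) : u ^ n * x = x * u ^ n :=
  (Commute.zpow_left (h.central x) n)

/-- the homomorphism from the splice group -/
def spliceHom (h : IsSplice ℓ G τ H inc u t) : Multiplicative ℤ × TorusA ℓ G τ →* H :=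
  MonoidHom.noncommCoprod (zpowersHom H u) (torusHom h) (fun a _ =>
    u_central h (Multiplicative.toAdd a) _)

lemma spliceHom_apply (h : IsSplice ℓ G τ H inc u t) (x : Multiplicative ℤ × TorusA ℓ G τ) :
    spliceHom h x = u ^ (Multiplicative.toAdd x.1) *
      (inc x.2.left * t ^ (Multiplicative.toAdd x.2.right)) := rfl

/-- the bijection of the sets -/
def spliceSet (ℓ : Fin k → ℕ) (G : Fin k → Type) [∀ c, Group (G c)]
    (τ : ∀ c, MulAut (G c)) : (Multiplicative ℤ × TorusA ℓ G τ) ≃ (ℤ × Comps ℓ G × ℤ) where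
  toFun x := (Multiplicative.toAdd x.1, x.2.left, Multiplicative.toAdd x.2.right)
  invFun y := (Multiplicative.ofAdd y.1, ⟨y.2.1, Multiplicative.ofAdd y.2.2⟩)
  left_inv _ := rfl
  right_inv _ := rfl

lemma spliceHom_bij (h : IsSplice ℓ G τ H inc u t) : Function.Bijective (spliceHom h) := by
  have h1 : (spliceHom h : Multiplicative ℤ × TorusA ℓ G τ → H) =
      (fun p : ℤ × Comps ℓ G × ℤ => u ^ p.1 * (inc p.2.1 * t ^ p.2.2)) ∘
        (spliceSet ℓ G τ) := by
    funext x; rfl
  rw [h1]
  exact h.bij.comp (Equiv.bijective _)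

/-- the isomorphism -/
noncomputable def spliceEquiv (h : IsSplice ℓ G τ H inc u t) :
    Multiplicative ℤ × TorusA ℓ G τ ≃* H :=
  MulEquiv.ofBijective (spliceHom h) (spliceHom_bij h)

end Splice

lemma transport_symm {G H : Type} [Group G] [Group H] (e : G ≃* H) (φ : MulAut H) :
    transport e (transport e.symm φ) = φ := by
  ext x
  simp [transport_apply]

lemma sq_transport {G H : Type} [Group G] [Group H] (e : G ≃* H) (φ : MulAut G)
    (h : ∃ a, ∀ x, φ (φ x) = a * x * a⁻¹) :
    ∃ a, ∀ x, transport e φ (transport e φ x) = a * x * a⁻¹ := by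
  obtain ⟨a, ha⟩ := h
  refine ⟨e a, fun x => ?_⟩
  simp [transport_apply, ha]

section
variable {m k : ℕ} {col : Fin (m + 2) → Fin k} {G : Fin k → Type} [∀ c, Group (G c)]
  {H : Type} [Group H] {inc : Summands col G →* H} {br : ColBraid col →* H}

lemma sumEquiv_inl (h : IsSum col G H inc br) (g : Summands col G) :
    sumEquiv h (inl (φ := colAct col G) g) = inc g := by
  change inc g * br 1 = inc g
  rw [map_one, mul_one]

lemma sumEquiv_inr (h : IsSum col G H inc br) (β : ColBraid col) :
    sumEquiv h (inr (φ := colAct col G) β) = br β := by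
  change inc 1 * br β = br β
  rw [map_one, one_mul]

lemma Good.sumH (hcol : Function.Surjective col) (o : ∀ c, Option (MulAut (G c)))
    (d : Fin k → ℕ) (hG : ∀ c, Good (G c) (o c) (d c)) (h : IsSum col G H inc br) :
    Good H none (Finset.univ.sup d) :=
  (Good.sum hcol o d hG).iso (sumEquiv h)

lemma Good.sumInvH (hcol : Function.Surjective col) (o : ∀ c, Option (MulAut (G c)))
    (d : Fin k → ℕ) (hG : ∀ c, Good (G c) (o c) (d c)) (h : IsSum col G H inc br)
    (φ : MulAut H) (bar : Fin k → Fin k) (b : Braid (m + 1))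
    (hφ : IsSumInversion col G H inc br φ bar b) :
    Good H (some φ) (Finset.univ.sup d) := by
  have e1 : ∀ β : colBraid col, ∃ β' : colBraid col,
      (β' : Braid (m + 1)) = b⁻¹ * refl (m + 1) β * b ∧
      transport (sumEquiv h).symm φ (inr (φ := colAct col G) β) = inr β' := by
    intro β
    obtain ⟨β', h1, h2⟩ := hφ.braids β
    refine ⟨β', h1, ?_⟩
    rw [transport_apply, MulEquiv.symm_symm, sumEquiv_inr h β, h2, ← sumEquiv_inr h β']
    exact MulEquiv.symm_apply_apply _ _
  have e2 : ∀ g : SummandsA col G, ∃ g' : SummandsA col G,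
      transport (sumEquiv h).symm φ (inl (φ := colAct col G) g) = inl g' := by
    intro g
    obtain ⟨g', h2⟩ := hφ.summands g
    refine ⟨g', ?_⟩
    rw [transport_apply, MulEquiv.symm_symm, sumEquiv_inl h g, h2, ← sumEquiv_inl h g']
    exact MulEquiv.symm_apply_apply _ _
  have hg := (Good.sumInv hcol o d hG bar b (transport (sumEquiv h).symm φ) hφ.bar_bar
    hφ.colours (fun β => by obtain ⟨β', _, h2⟩ := e1 β; rw [h2, left_inr])
    (fun β => by obtain ⟨β', h1, h2⟩ := e1 β; rw [h2, right_inr, h1])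
    (fun g => by obtain ⟨g', h2⟩ := e2 g; rw [h2, right_inl])
    (sq_transport _ _ hφ.sq)).iso (sumEquiv h)
  rwa [Option.map_some, transport_symm] at hg

end

section
variable {k : ℕ} {ℓ : Fin k → ℕ} {G : Fin k → Type} [∀ c, Group (G c)]
  {τ : ∀ c, MulAut (G c)} {H : Type} [Group H] {inc : Comps ℓ G →* H} {u t : H}

lemma Good.spliceH (o : ∀ c, Option (MulAut (G c))) (d : Fin k → ℕ)
    (hG : ∀ c, Good (G c) (o c) (d c)) (rev : Fin k → Bool) (hτ : IsReturn o rev τ)
    (h : IsSplice ℓ G τ H inc u t) : Good H none (spliceDepth rev d) :=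
  (Good.splice o d hG rev hτ).iso (spliceEquiv h)

lemma spliceEquiv_u (h : IsSplice ℓ G τ H inc u t) (n : Multiplicative ℤ) :
    spliceEquiv h (n, 1) = u ^ (Multiplicative.toAdd n) := by
  change u ^ (Multiplicative.toAdd n) * (inc 1 * t ^ (0 : ℤ)) = _
  rw [map_one, zpow_zero, mul_one, mul_one]

/-- the first coordinate -/
noncomputable def fstHom (h : IsSplice ℓ G τ H inc u t) : H →* Multiplicative ℤ :=
  (MonoidHom.fst (Multiplicative ℤ) (TorusA ℓ G τ)).comp ((spliceEquiv h).symm : H →* _)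

lemma fstHom_equiv (h : IsSplice ℓ G τ H inc u t) (x : Multiplicative ℤ × TorusA ℓ G τ) :
    fstHom h (spliceEquiv h x) = x.1 := by
  change ((spliceEquiv h).symm (spliceEquiv h x)).1 = x.1
  rw [MulEquiv.symm_apply_apply]

lemma fstHom_u (h : IsSplice ℓ G τ H inc u t) : fstHom h u = Multiplicative.ofAdd 1 := by
  have h1 := spliceEquiv_u h (Multiplicative.ofAdd 1)
  rw [toAdd_ofAdd, zpow_one] at h1
  have h2 := fstHom_equiv h (Multiplicative.ofAdd 1, 1)
  rw [h1] at h2
  exact h2

lemma fstHom_inc (h : IsSplice ℓ G τ H inc u t) (g : Comps ℓ G) : fstHom h (inc g) = 1 := by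
  have h1 : spliceEquiv h (1, inl (φ := zpowersHom (MulAut (CompsA ℓ G)) (rot ℓ G τ)) g) =
      inc g := by
    change u ^ (0 : ℤ) * (inc g * t ^ (0 : ℤ)) = _
    rw [zpow_zero, zpow_zero, mul_one, one_mul]
  rw [← h1, fstHom_equiv]

lemma fstHom_t (h : IsSplice ℓ G τ H inc u t) : fstHom h t = 1 := by
  have h1 : spliceEquiv h (1, inr (φ := zpowersHom (MulAut (CompsA ℓ G)) (rot ℓ G τ))
      (Multiplicative.ofAdd 1)) = t := by
    change u ^ (0 : ℤ) * (inc 1 * t ^ (1 : ℤ)) = _
    rw [zpow_zero, zpow_one, map_one, one_mul, one_mul]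
  have h2 := fstHom_equiv h (1, inr (φ := zpowersHom (MulAut (CompsA ℓ G)) (rot ℓ G τ))
      (Multiplicative.ofAdd 1))
  rw [h1] at h2
  exact h2

lemma Good.spliceInvH (o : ∀ c, Option (MulAut (G c))) (d : Fin k → ℕ)
    (hG : ∀ c, Good (G c) (o c) (d c)) (rev : Fin k → Bool) (hτ : IsReturn o rev τ)
    (h : IsSplice ℓ G τ H inc u t) (φ : MulAut H) (hφ : IsSpliceInversion ℓ G H inc u t φ) :
    Good H (some φ) (spliceDepth rev d) := by
  have hf : ∀ y, fstHom h (φ y) = (fstHom h y)⁻¹ := by
    intro y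
    obtain ⟨⟨a, g, b⟩, hp⟩ := h.bij.2 y
    have hp' : u ^ a * (inc g * t ^ b) = y := hp
    obtain ⟨g', hg'⟩ := hφ.companions g
    obtain ⟨g0, hg0⟩ := hφ.symmetry
    rw [← hp']
    simp only [map_mul, map_zpow, hφ.rotation, hg', hg0, map_inv, fstHom_inc, fstHom_t,
      fstHom_u, one_zpow, mul_one, inv_one, inv_zpow]
  have hg := (Good.spliceInv o d hG rev hτ (transport (spliceEquiv h).symm φ)
    (fun n => by
      rw [transport_apply, MulEquiv.symm_symm, spliceEquiv_u, map_zpow, hφ.rotation,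
        inv_zpow, ← zpow_neg, MulEquiv.symm_apply_eq, spliceEquiv_u, toAdd_inv])
    (fun x => by
      have h1 : (transport (spliceEquiv h).symm φ x).1 = fstHom h (φ (spliceEquiv h x)) := rfl
      rw [h1, hf, fstHom_equiv])
    (sq_transport _ _ hφ.sq)).iso (spliceEquiv h)
  rwa [Option.map_some, transport_symm] at hg

end

theorem good_of_knotGroup {G : Type} [inst : Group G] {o : Option (MulAut G)} {d : ℕ}
    (h : KnotGroup G o d) : Good G o d := by
  induction h with
  | unknot => exact Good.unknot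
  | torus => exact Good.torus
  | hyperbolic => exact Good.hyperbolic
  | iso e _ ih => exact ih.iso e
  | inner a _ ih => exact ih.inner a
  | forget _ ih => exact ih.forget
  | cable _ ih => exact ih.cable
  | sum col hcol G o d _ H inc br hH ih => exact Good.sumH hcol o d ih hH
  | sumInv col hcol G o d _ H inc br hH φ bar b hφ ih =>
    exact Good.sumInvH hcol o d ih hH φ bar b hφ
  | splice ℓ G o d _ rev τ hτ H inc u t hH ih => exact Good.spliceH o d ih rev hτ hH
  | spliceInv ℓ G o d _ rev τ hτ H inc u t hH φ hφ ih =>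
    exact Good.spliceInvH o d ih rev hτ hH φ hφ

theorem torsion_exponent {G : Type} [Group G] {o : Option (MulAut G)} {d : ℕ}
    (h : KnotGroup G o d) (x : Abelianization G) (hx : IsOfFinOrder x) : orderOf x ∣ 2 ^ d := by
  obtain ⟨y, rfl⟩ := QuotientGroup.mk'_surjective (commutator G) x
  exact orderOf_dvd_of_pow_eq_one ((good_of_knotGroup h).exp y hx)

theorem torsion_iff {G : Type} [Group G] {o : Option (MulAut G)} {d : ℕ}
    (h : KnotGroup G o d) : (∃ x : Abelianization G, x ≠ 1 ∧ IsOfFinOrder x) ↔ 0 < d := by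
  constructor
  · rintro ⟨x, hx, hx'⟩
    by_contra hd
    have hd0 : d = 0 := by omega
    have h1 := torsion_exponent h x hx'
    rw [hd0, pow_zero, Nat.dvd_one, orderOf_eq_one_iff] at h1
    exact hx h1
  · intro hd
    obtain ⟨x, hx, hx'⟩ := (good_of_knotGroup h).tors hd
    exact ⟨Abelianization.of x, hx, hx'⟩

end Pool.Agent.Lib.MP_9ed307_gt
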