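import Pool.Agent.Lib.MP_9ed307_gt.Basic
import Pool.Agent.Lib.MP_9ed307_gt.Ext

namespace Pool.Agent.Lib.MP_9ed307_gt

open Equiv SemidirectProduct

lemma zpow_fix {X A : Type} [Group X] (a : MulAut X) (F : X → A) (h : ∀ x, F (a x) = F x)
    (n : ℤ) : ∀ x, F ((a ^ n) x) = F x := by
  induction n using Int.induction_on with
  | zero => intro x; simp
  | succ n ih =>
    intro x
    rw [zpow_add, zpow_one, MulAut.mul_apply, ih, h]
  | pred n ih =>
    intro x
    rw [zpow_sub, zpow_one, MulAut.mul_apply, ih]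
    have := h (a⁻¹ x)
    rw [← this, MulAut.apply_inv_self]

/-- The semidirect product of `CompsA ℓ G` and `ℤ`, whose generator acts by `rot ℓ G τ`. -/
abbrev TorusA {k : ℕ} (ℓ : Fin k → ℕ) (G : Fin k → Type) [∀ c, Group (G c)]
    (τ : ∀ c, MulAut (G c)) : Type :=
  CompsA ℓ G ⋊[zpowersHom (MulAut (CompsA ℓ G)) (rot ℓ G τ)] Multiplicative ℤ

section
variable {k : ℕ} {ℓ : Fin k → ℕ} {G : Fin k → Type} [∀ c, Group (G c)]
  {τ : ∀ c, MulAut (G c)} {A : Type} [CommGroup A]

/-- product over the copies of `G c` -/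
def totC (ℓ : Fin k → ℕ) (c : Fin k) (f : G c →* A) : CompsA ℓ G →* A where
  toFun g := ∏ j, f (g c j)
  map_one' := by simp
  map_mul' := by intro g h; simp [Finset.prod_mul_distrib]

lemma totC_apply (c : Fin k) (f : G c →* A) (g : CompsA ℓ G) :
    totC ℓ c f g = ∏ j, f (g c j) := rfl

lemma totC_rot (c : Fin k) (f : G c →* A) (hf : ∀ x, f (τ c x) = f x) (g : CompsA ℓ G) :
    totC ℓ c f (rot ℓ G τ g) = totC ℓ c f g := by
  rw [totC_apply, totC_apply, Fin.prod_univ_succ, Fin.prod_univ_castSucc (n := ℓ c), mul_comm]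
  congr 1
  exact hf _

/-- the induced homomorphism of the semidirect product -/
def tot (c : Fin k) (f : G c →* A) (hf : ∀ x, f (τ c x) = f x) : TorusA ℓ G τ →* A :=
  SemidirectProduct.lift (totC ℓ c f) 1 (by
    intro n
    ext g
    simp only [MonoidHom.coe_comp, Function.comp_apply, MulEquiv.coe_toMonoidHom,
      MonoidHom.one_apply, map_one, MulAut.one_apply]
    exact zpow_fix (rot ℓ G τ) (totC ℓ c f) (totC_rot c f hf) _ g)

lemma tot_inl (c : Fin k) (f : G c →* A) (hf : ∀ x, f (τ c x) = f x) (g : CompsA ℓ G) :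
    tot (ℓ := ℓ) c f hf (inl g) = ∏ j, f (g c j) := by
  rw [tot, SemidirectProduct.lift_inl]; rfl

/-- inclusion of one copy -/
def emb (ℓ : Fin k → ℕ) (c : Fin k) (j : Fin (ℓ c + 1)) : G c →* CompsA ℓ G :=
  (MonoidHom.mulSingle (fun c => Fin (ℓ c + 1) → G c) c).comp
    (MonoidHom.mulSingle (fun _ => G c) j)

lemma emb_same (c : Fin k) (j : Fin (ℓ c + 1)) (x : G c) :
    emb ℓ c j x c = Pi.mulSingle j x := by
  simp [emb]

lemma emb_ne {c c' : Fin k} (h : c' ≠ c) (j : Fin (ℓ c + 1)) (x : G c) :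
    emb ℓ c j x c' = 1 := by
  simp [emb, Pi.mulSingle_eq_of_ne h]

lemma rot_apply_zero (g : CompsA ℓ G) (c : Fin k) :
    rot ℓ G τ g c 0 = τ c (g c (Fin.last _)) := rfl

lemma rot_apply_succ (g : CompsA ℓ G) (c : Fin k) (j : Fin (ℓ c)) :
    rot ℓ G τ g c j.succ = g c j.castSucc := rfl

lemma rot_emb_last (c : Fin k) (x : G c) :
    rot ℓ G τ (emb ℓ c (Fin.last _) x) = emb ℓ c 0 (τ c x) := by
  funext c' j
  by_cases h : c' = c
  · subst h
    refine Fin.cases ?_ (fun j => ?_) j
    · rw [rot_apply_zero, emb_same, emb_same, Pi.mulSingle_eq_same, Pi.mulSingle_eq_same]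
    · rw [rot_apply_succ, emb_same, emb_same, Pi.mulSingle_eq_of_ne (Fin.succ_ne_zero j),
        Pi.mulSingle_eq_of_ne (Fin.castSucc_lt_last j).ne]
  · refine Fin.cases ?_ (fun j => ?_) j
    · rw [rot_apply_zero, emb_ne h, emb_ne h, Pi.one_apply, Pi.one_apply, map_one]
    · rw [rot_apply_succ, emb_ne h, emb_ne h, Pi.one_apply, Pi.one_apply]

lemma rot_emb_castSucc (c : Fin k) (i : Fin (ℓ c)) (x : G c) :
    rot ℓ G τ (emb ℓ c i.castSucc x) = emb ℓ c i.succ x := by
  funext c' j
  by_cases h : c' = c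
  · subst h
    refine Fin.cases ?_ (fun j => ?_) j
    · rw [rot_apply_zero, emb_same, emb_same, Pi.mulSingle_eq_of_ne (Fin.succ_ne_zero i).symm,
        Pi.mulSingle_eq_of_ne (Fin.castSucc_lt_last i).ne', map_one]
    · rw [rot_apply_succ, emb_same, emb_same]
      by_cases hij : i = j
      · subst hij
        rw [Pi.mulSingle_eq_same, Pi.mulSingle_eq_same]
      · rw [Pi.mulSingle_eq_of_ne, Pi.mulSingle_eq_of_ne]
        · intro h; exact hij (Fin.succ_injective _ h).symm
        · intro h; exact hij (Fin.castSucc_injective _ h).symm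
  · refine Fin.cases ?_ (fun j => ?_) j
    · rw [rot_apply_zero, emb_ne h, emb_ne h, Pi.one_apply, Pi.one_apply, map_one]
    · rw [rot_apply_succ, emb_ne h, emb_ne h, Pi.one_apply, Pi.one_apply]

lemma hom_decomp (F : CompsA ℓ G →* A) (g : CompsA ℓ G) :
    F g = ∏ c, ∏ j, F (emb ℓ c j (g c j)) := by
  classical
  let F' : CompsA ℓ G →* A :=
    { toFun := fun g => ∏ c, ∏ j, F (emb ℓ c j (g c j))
      map_one' := by simp
      map_mul' := by intro g h; simp [Finset.prod_mul_distrib] }
  have h : F = F' := by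
    apply MonoidHom.pi_ext
    intro c x
    have h2 : F.comp (MonoidHom.mulSingle (fun c => Fin (ℓ c + 1) → G c) c) =
        F'.comp (MonoidHom.mulSingle (fun c => Fin (ℓ c + 1) → G c) c) := by
      apply MonoidHom.pi_ext
      intro j y
      change F (emb ℓ c j y) = ∏ c', ∏ j', F (emb ℓ c' j' (emb ℓ c j y c' j'))
      rw [Finset.prod_eq_single c, Finset.prod_eq_single j]
      · rw [emb_same, Pi.mulSingle_eq_same]
      · intro j' _ hj
        rw [emb_same, Pi.mulSingle_eq_of_ne hj, map_one, map_one]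
      · intro h; exact absurd (Finset.mem_univ _) h
      · intro c' _ hc
        apply Finset.prod_eq_one
        intro j' _
        rw [emb_ne hc, Pi.one_apply, map_one, map_one]
      · intro h; exact absurd (Finset.mem_univ _) h
    exact DFunLike.congr_fun h2 x
  exact DFunLike.congr_fun h g

variable (ℓ G τ)

/-- the homomorphism from the components to the abelianization -/
def J : CompsA ℓ G →* Abelianization (Multiplicative ℤ × TorusA ℓ G τ) :=
  Abelianization.of.comp ((MonoidHom.inr (Multiplicative ℤ) (TorusA ℓ G τ)).comp inl)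

variable {ℓ G τ}

lemma J_rot (g : CompsA ℓ G) : J ℓ G τ (rot ℓ G τ g) = J ℓ G τ g := by
  have h1 : (inl (rot ℓ G τ g) : TorusA ℓ G τ) =
      inr (Multiplicative.ofAdd 1) * inl g * (inr (Multiplicative.ofAdd 1))⁻¹ := by
    have h2 : zpowersHom (MulAut (CompsA ℓ G)) (rot ℓ G τ) (Multiplicative.ofAdd 1) =
        rot ℓ G τ := by simp
    have h3 := inl_aut (φ := zpowersHom (MulAut (CompsA ℓ G)) (rot ℓ G τ))
      (Multiplicative.ofAdd 1) g
    rw [h2, map_inv] at h3
    exact h3
  change Abelianization.of ((MonoidHom.inr (Multiplicative ℤ) (TorusA ℓ G τ))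
    (inl (rot ℓ G τ g))) = Abelianization.of ((MonoidHom.inr (Multiplicative ℤ)
      (TorusA ℓ G τ)) (inl g))
  rw [h1]
  simp only [map_mul, map_inv]
  rw [mul_comm, inv_mul_cancel_left]

lemma J_emb (c : Fin k) (j : Fin (ℓ c + 1)) (x : G c) :
    J ℓ G τ (emb ℓ c j x) = J ℓ G τ (emb ℓ c 0 x) := by
  induction j using Fin.induction with
  | zero => rfl
  | succ j ih => rw [← rot_emb_castSucc (τ := τ), J_rot, ih]

lemma J_emb_tau (c : Fin k) (x : G c) :
    J ℓ G τ (emb ℓ c 0 (τ c x)) = J ℓ G τ (emb ℓ c 0 x) := by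
  rw [← rot_emb_last, J_rot, J_emb]

/-- one factor -/
def Jc (ℓ : Fin k → ℕ) (G : Fin k → Type) [∀ c, Group (G c)]
    (τ : ∀ c, MulAut (G c)) (c : Fin k) :
    G c →* Abelianization (Multiplicative ℤ × TorusA ℓ G τ) := (J ℓ G τ).comp (emb ℓ c 0)

lemma Jc_tau (c : Fin k) (x : G c) : Jc ℓ G τ c (τ c x) = Jc ℓ G τ c x := J_emb_tau c x

lemma J_eq (g : CompsA ℓ G) : J ℓ G τ g = ∏ c, ∏ j, Jc ℓ G τ c (g c j) := by
  rw [hom_decomp (J ℓ G τ) g]
  refine Finset.prod_congr rfl fun c _ => Finset.prod_congr rfl fun j _ => J_emb c j _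

lemma eq_J {x : Multiplicative ℤ × TorusA ℓ G τ} (hx : IsOfFinOrder (Abelianization.of x)) :
    Abelianization.of x = J ℓ G τ x.2.left := by
  have h1 : x.1 = 1 := by
    apply multInt_torsionfree
    have := (Abelianization.lift
      (MonoidHom.fst (Multiplicative ℤ) (TorusA ℓ G τ))).isOfFinOrder hx
    rwa [Abelianization.lift_apply_of] at this
  have h2 : x.2.right = 1 := by
    apply multInt_torsionfree
    have := (Abelianization.lift
      (rightHom.comp (MonoidHom.snd (Multiplicative ℤ) (TorusA ℓ G τ)))).isOfFinOrder hx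
    rwa [Abelianization.lift_apply_of] at this
  have h3 : x = (MonoidHom.inr (Multiplicative ℤ) (TorusA ℓ G τ)) (inl x.2.left) := by
    ext
    · simp [h1]
    · simp
    · simp [h2]
  conv_lhs => rw [h3]
  rfl

/-- the hypotheses on the factors of a splice -/
lemma Good.splice_exp (o : ∀ c, Option (MulAut (G c))) (d : Fin k → ℕ)
    (h : ∀ c, Good (G c) (o c) (d c)) (rev : Fin k → Bool)
    (hτ : IsReturn o rev τ)
    (x : Multiplicative ℤ × TorusA ℓ G τ) (hx : IsOfFinOrder (Abelianization.of x)) :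
    Abelianization.of x ^ 2 ^ (spliceDepth rev d) = 1 := by
  unfold spliceDepth
  rw [eq_J hx, J_eq, ← Finset.prod_pow]
  apply Finset.prod_eq_one
  intro c _
  have hle : (if rev c then d c + 1 else d c) ≤
      Finset.univ.sup fun c => if rev c then d c + 1 else d c :=
    Finset.le_sup (f := fun c => if rev c then d c + 1 else d c) (Finset.mem_univ c)
  obtain ⟨e, he⟩ := Nat.exists_eq_add_of_le hle
  rw [he, pow_add, pow_mul]
  have key : (∏ j, Jc ℓ G τ c (x.2.left c j)) ^ 2 ^ (if rev c then d c + 1 else d c) = 1 := by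
    have hc := hτ c
    by_cases hr : rev c = true
    · rw [if_pos hr] at hc ⊢
      obtain ⟨a, ha⟩ := (h c).sq _ hc
      let N : G c →* Abelianization (G c) :=
        { toFun := fun y => Abelianization.of y * Abelianization.of (τ c y)
          map_one' := by simp
          map_mul' := by
            intro y z
            simp only [map_mul]
            rw [mul_mul_mul_comm] }
      have hN : ∀ y, N (τ c y) = N y := by
        intro y
        change Abelianization.of (τ c y) * Abelianization.of (τ c (τ c y)) =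
          Abelianization.of y * Abelianization.of (τ c y)
        rw [ha, of_conj, mul_comm]
      have h1 := exp_down ((tot (ℓ := ℓ) (τ := τ) c N hN).comp
        (MonoidHom.snd (Multiplicative ℤ) (TorusA ℓ G τ))) (h c).exp hx
      have h2 : (tot (ℓ := ℓ) (τ := τ) c N hN).comp
          (MonoidHom.snd (Multiplicative ℤ) (TorusA ℓ G τ)) x = ∏ j, N (x.2.left c j) := by
        change totC ℓ c N x.2.left * (1 : Multiplicative ℤ →* Abelianization (G c)) x.2.right = _
        rw [MonoidHom.one_apply, mul_one, totC_apply]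
      rw [h2] at h1
      have h3 := congrArg (Abelianization.lift (Jc ℓ G τ c)) h1
      rw [map_pow, map_prod, map_one] at h3
      have h4 : ∀ y, Abelianization.lift (Jc ℓ G τ c) (N y) = Jc ℓ G τ c y ^ 2 := by
        intro y
        change Abelianization.lift (Jc ℓ G τ c)
          (Abelianization.of y * Abelianization.of (τ c y)) = _
        rw [map_mul, Abelianization.lift_apply_of, Abelianization.lift_apply_of, Jc_tau, pow_two]
      simp only [h4] at h3
      rw [Finset.prod_pow, ← pow_mul, ← pow_succ'] at h3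
      exact h3
    · rw [if_neg hr] at hc ⊢
      have hf : ∀ y, Abelianization.of (τ c y) = Abelianization.of y := by
        obtain ⟨a, ha⟩ := hc
        intro y; rw [ha, MulAut.conj_apply, of_conj]
      have h1 := exp_down ((tot (ℓ := ℓ) (τ := τ) c Abelianization.of hf).comp
        (MonoidHom.snd (Multiplicative ℤ) (TorusA ℓ G τ))) (h c).exp hx
      have h2 : (tot (ℓ := ℓ) (τ := τ) c Abelianization.of hf).comp
          (MonoidHom.snd (Multiplicative ℤ) (TorusA ℓ G τ)) x =
          ∏ j, Abelianization.of (x.2.left c j) := by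
        change totC ℓ c Abelianization.of x.2.left *
          (1 : Multiplicative ℤ →* Abelianization (G c)) x.2.right = _
        rw [MonoidHom.one_apply, mul_one, totC_apply]
      rw [h2] at h1
      have h3 := congrArg (Abelianization.lift (Jc ℓ G τ c)) h1
      rw [map_pow, map_prod, map_one] at h3
      simp only [Abelianization.lift_apply_of] at h3
      exact h3
  rw [← pow_mul, pow_mul, key, one_pow]

lemma Good.splice_tors (o : ∀ c, Option (MulAut (G c))) (d : Fin k → ℕ)
    (h : ∀ c, Good (G c) (o c) (d c)) (rev : Fin k → Bool)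
    (hτ : IsReturn o rev τ)
    (hd : 0 < spliceDepth rev d) :
    ∃ x : Multiplicative ℤ × TorusA ℓ G τ, Abelianization.of x ≠ 1 ∧
      IsOfFinOrder (Abelianization.of x) := by
  unfold spliceDepth at hd
  rw [Finset.lt_sup_iff] at hd
  obtain ⟨c, -, hd⟩ := hd
  have hc := hτ c
  by_cases hr : rev c = true
  · rw [if_pos hr] at hc
    obtain ⟨f, t, h1, h2, h3⟩ := (h c).inv _ hc
    refine ⟨(1, inl (emb ℓ c 0 t)), ?_, ?_⟩
    · intro h4
      apply h2
      have h5 := congrArg (Abelianization.lift ((tot (ℓ := ℓ) (τ := τ) c f h1).comp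
        (MonoidHom.snd (Multiplicative ℤ) (TorusA ℓ G τ)))) h4
      rw [Abelianization.lift_apply_of, map_one] at h5
      rw [← h5]
      change _ = tot (ℓ := ℓ) (τ := τ) c f h1 (inl (emb ℓ c 0 t))
      rw [tot_inl, Finset.prod_eq_single 0]
      · rw [emb_same, Pi.mulSingle_eq_same]
      · intro j _ hj
        rw [emb_same, Pi.mulSingle_eq_of_ne hj, map_one]
      · intro h; exact absurd (Finset.mem_univ _) h
    · rw [isOfFinOrder_iff_pow_eq_one]
      refine ⟨2, by norm_num, ?_⟩
      have h4 := congrArg (Abelianization.lift (Jc ℓ G τ c)) h3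
      rw [map_inv, Abelianization.lift_apply_of, Abelianization.lift_apply_of, Jc_tau] at h4
      change Jc ℓ G τ c t ^ 2 = 1
      rw [pow_two]
      nth_rw 1 [h4]
      exact inv_mul_cancel _
  · rw [if_neg hr] at hc hd
    have hf : ∀ y, Abelianization.of (τ c y) = Abelianization.of y := by
      obtain ⟨a, ha⟩ := hc
      intro y; rw [ha, MulAut.conj_apply, of_conj]
    refine tors_up ((MonoidHom.inr (Multiplicative ℤ) (TorusA ℓ G τ)).comp
      (inl.comp (emb ℓ c 0))) ((tot (ℓ := ℓ) (τ := τ) c Abelianization.of hf).comp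
        (MonoidHom.snd (Multiplicative ℤ) (TorusA ℓ G τ))) ?_ ((h c).tors hd)
    intro x
    change tot (ℓ := ℓ) (τ := τ) c Abelianization.of hf (inl (emb ℓ c 0 x)) = _
    rw [tot_inl, Finset.prod_eq_single 0]
    · rw [emb_same, Pi.mulSingle_eq_same]
    · intro j _ hj
      rw [emb_same, Pi.mulSingle_eq_of_ne hj, map_one]
    · intro h; exact absurd (Finset.mem_univ _) h

lemma Good.splice (o : ∀ c, Option (MulAut (G c))) (d : Fin k → ℕ)
    (h : ∀ c, Good (G c) (o c) (d c)) (rev : Fin k → Bool)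
    (hτ : IsReturn o rev τ) :
    Good (Multiplicative ℤ × TorusA ℓ G τ) none (spliceDepth rev d) where
  exp x hx := Good.splice_exp o d h rev hτ x hx
  tors hd := Good.splice_tors o d h rev hτ hd
  sq φ hφ := by cases hφ
  inv φ hφ := by cases hφ

lemma Good.spliceInv (o : ∀ c, Option (MulAut (G c))) (d : Fin k → ℕ)
    (h : ∀ c, Good (G c) (o c) (d c)) (rev : Fin k → Bool)
    (hτ : IsReturn o rev τ)
    (Φ : MulAut (Multiplicative ℤ × TorusA ℓ G τ)) (hΦ1 : ∀ n, Φ (n, 1) = (n⁻¹, 1))
    (hΦ2 : ∀ x, (Φ x).1 = x.1⁻¹) (hΦ3 : ∃ a, ∀ x, Φ (Φ x) = a * x * a⁻¹) :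
    Good (Multiplicative ℤ × TorusA ℓ G τ) (some Φ)
      (spliceDepth rev d) where
  exp x hx := Good.splice_exp o d h rev hτ x hx
  tors hd := Good.splice_tors o d h rev hτ hd
  sq φ hφ := by
    obtain rfl := Option.some.inj hφ
    exact hΦ3
  inv φ hφ := by
    obtain rfl := Option.some.inj hφ
    refine ⟨mod2.comp (MonoidHom.fst (Multiplicative ℤ) (TorusA ℓ G τ)),
      (Multiplicative.ofAdd 1, 1), fun x => ?_, mod2_one, ?_⟩
    · change mod2 (Φ x).1 = mod2 x.1
      rw [hΦ2, mod2_inv]
    · rw [hΦ1, ← map_inv (Abelianization.of (G := Multiplicative ℤ × TorusA ℓ G τ)),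
        Prod.inv_mk, inv_one]

end

end Pool.Agent.Lib.MP_9ed307_gt
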